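import Pool.Agent.BRS.Fin

set_option autoImplicit false

/-! Closed form estimates for the constant. -/

namespace Pool.Agent.BRS

open Real Finset Filter

theorem c_succ (k : ℕ) : c (k + 1) = (2 * (k : ℝ) + 1) / (2 * k + 2) * c k := by
  unfold c
  have h := Nat.succ_mul_centralBinom_succ k
  have h2 : ((k : ℝ) + 1) * (Nat.centralBinom (k + 1) : ℝ)
      = 2 * (2 * (k : ℝ) + 1) * (Nat.centralBinom k : ℝ) := by exact_mod_cast h
  have hk : (0 : ℝ) ≤ k := Nat.cast_nonneg k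
  have h3 : (Nat.centralBinom (k + 1) : ℝ)
      = 2 * (2 * (k : ℝ) + 1) * (Nat.centralBinom k : ℝ) / ((k : ℝ) + 1) := by
    rw [eq_div_iff (by positivity)]
    linarith
  rw [h3]
  field_simp
  ring

theorem one_sub_d (k : ℕ) : 1 - d k = π * k * c k ^ 2 := by unfold d; ring

theorem d_succ (k : ℕ) (hk : 1 ≤ k) :
    1 - d (k + 1) = (2 * (k : ℝ) + 1) ^ 2 / (4 * k * (k + 1)) * (1 - d k) := by
  rw [one_sub_d, one_sub_d, c_succ]
  have hk' : (0 : ℝ) < k := by exact_mod_cast hk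
  push_cast
  field_simp
  ring

theorem d_tendsto : Tendsto (fun j : ℕ => 1 - d (j + 1)) atTop (nhds 1) := by
  have h : Tendsto (fun j : ℕ => 2 * (j + 1) - 1) atTop atTop :=
    tendsto_atTop_mono (fun j => (by omega : j ≤ 2 * (j + 1) - 1)) tendsto_id
  refine (ratio_tendsto.comp h).congr fun j => ?_
  exact ratio_eq (by omega)

theorem d_lower (k : ℕ) (hk : 1 ≤ k) : 1 / (4 * (k : ℝ) + 1) ≤ d k := by
  obtain ⟨j, rfl⟩ : ∃ j, k = j + 1 := ⟨k - 1, by omega⟩
  have hmono : Monotone fun j : ℕ =>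
      (1 - d (j + 1)) * ((4 * ((j : ℝ) + 1) + 1) / (4 * ((j : ℝ) + 1))) := by
    apply monotone_nat_of_le_succ
    intro n
    have hd := d_succ (n + 1) (by omega)
    have hp : 0 < 1 - d (n + 1) := by linarith [(d_mem (k := n + 1) (by omega)).2]
    rw [hd]
    push_cast
    have hn : (0 : ℝ) ≤ n := Nat.cast_nonneg n
    rw [mul_comm ((2 * ((n : ℝ) + 1) + 1) ^ 2 / (4 * (n + 1) * (n + 1 + 1))) (1 - d (n + 1)),
      mul_assoc]
    apply mul_le_mul_of_nonneg_left _ hp.le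
    rw [div_mul_div_comm, div_le_div_iff₀ (by positivity) (by positivity)]
    have e : (2 * ((n : ℝ) + 1) + 1) ^ 2 * (4 * ((n : ℝ) + 1 + 1) + 1) * (4 * ((n : ℝ) + 1))
        - (4 * ((n : ℝ) + 1) + 1) * (4 * (n + 1) * (n + 1 + 1) * (4 * ((n : ℝ) + 1 + 1)))
        = 4 * ((n : ℝ) + 1) := by ring
    have : 0 ≤ 4 * ((n : ℝ) + 1) := by positivity
    linarith
  have hlim : Tendsto (fun j : ℕ =>
      (1 - d (j + 1)) * ((4 * ((j : ℝ) + 1) + 1) / (4 * ((j : ℝ) + 1)))) atTop (nhds 1) := by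
    have h1 : Tendsto (fun j : ℕ => (4 * ((j : ℝ) + 1) + 1) / (4 * ((j : ℝ) + 1))) atTop
        (nhds 1) := by
      have h2 : Tendsto (fun j : ℕ => 1 + 1 / 4 * (1 / ((j : ℝ) + 1))) atTop
          (nhds (1 + 1 / 4 * 0)) :=
        tendsto_const_nhds.add (tendsto_one_div_add_atTop_nhds_zero_nat.const_mul _)
      rw [mul_zero, add_zero] at h2
      refine h2.congr fun j => ?_
      have hj : (0 : ℝ) < (j : ℝ) + 1 := by positivity
      field_simp
    have h3 := d_tendsto.mul h1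
    rwa [mul_one] at h3
  have h := hmono.ge_of_tendsto hlim j
  have hj : (0 : ℝ) < (j : ℝ) + 1 := by positivity
  rw [mul_div_assoc', div_le_one (by positivity)] at h
  push_cast
  rw [div_le_iff₀ (by positivity)]
  nlinarith

theorem d_upper (k : ℕ) (hk : 1 ≤ k) : d k ≤ 1 / (3 * (k : ℝ) + 1) := by
  obtain ⟨j, rfl⟩ : ∃ j, k = j + 1 := ⟨k - 1, by omega⟩
  have hmono : Antitone fun j : ℕ =>
      (1 - d (j + 1)) * ((3 * ((j : ℝ) + 1) + 1) / (3 * ((j : ℝ) + 1))) := by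
    apply antitone_nat_of_succ_le
    intro n
    have hd := d_succ (n + 1) (by omega)
    have hp : 0 < 1 - d (n + 1) := by linarith [(d_mem (k := n + 1) (by omega)).2]
    rw [hd]
    push_cast
    have hn : (0 : ℝ) ≤ n := Nat.cast_nonneg n
    rw [mul_comm ((2 * ((n : ℝ) + 1) + 1) ^ 2 / (4 * (n + 1) * (n + 1 + 1))) (1 - d (n + 1)),
      mul_assoc]
    apply mul_le_mul_of_nonneg_left _ hp.le
    rw [div_mul_div_comm, div_le_div_iff₀ (by positivity) (by positivity)]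
    have e : (3 * ((n : ℝ) + 1) + 1) * (4 * (n + 1) * (n + 1 + 1) * (3 * ((n : ℝ) + 1 + 1)))
        - (2 * ((n : ℝ) + 1) + 1) ^ 2 * (3 * ((n : ℝ) + 1 + 1) + 1) * (3 * ((n : ℝ) + 1))
        = 3 * ((n : ℝ) + 1) * ((n : ℝ) + 1) := by ring
    have : 0 ≤ 3 * ((n : ℝ) + 1) * ((n : ℝ) + 1) := by positivity
    linarith
  have hlim : Tendsto (fun j : ℕ =>
      (1 - d (j + 1)) * ((3 * ((j : ℝ) + 1) + 1) / (3 * ((j : ℝ) + 1)))) atTop (nhds 1) := by
    have h1 : Tendsto (fun j : ℕ => (3 * ((j : ℝ) + 1) + 1) / (3 * ((j : ℝ) + 1))) atTop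
        (nhds 1) := by
      have h2 : Tendsto (fun j : ℕ => 1 + 1 / 3 * (1 / ((j : ℝ) + 1))) atTop
          (nhds (1 + 1 / 3 * 0)) :=
        tendsto_const_nhds.add (tendsto_one_div_add_atTop_nhds_zero_nat.const_mul _)
      rw [mul_zero, add_zero] at h2
      refine h2.congr fun j => ?_
      have hj : (0 : ℝ) < (j : ℝ) + 1 := by positivity
      field_simp
    have h3 := d_tendsto.mul h1
    rwa [mul_one] at h3
  have h := hmono.le_of_tendsto hlim j
  have hj : (0 : ℝ) < (j : ℝ) + 1 := by positivity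
  rw [mul_div_assoc', one_le_div (by positivity)] at h
  push_cast
  rw [le_div_iff₀ (by positivity)]
  nlinarith

/-- the zeta sum -/
theorem zsum_le (k : ℕ) (hk : 1 ≤ k) :
    ∑' j : ℕ, (((j : ℝ) + 1) ^ (2 * q k))⁻¹ ≤ π ^ 2 / 6 := by
  have h1 := hasSum_zeta_two
  have h2 := (hasSum_nat_add_iff' 1).2 h1
  simp only [Finset.sum_range_one, Nat.cast_zero, ne_eq, OfNat.ofNat_ne_zero, not_false_eq_true,
    zero_pow, div_zero, sub_zero] at h2
  rw [← h2.tsum_eq]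
  apply Summable.tsum_le_tsum _ (S_summable hk) h2.summable
  intro j
  have hj : (1 : ℝ) ≤ (j : ℝ) + 1 := by have : (0 : ℝ) ≤ j := Nat.cast_nonneg j; linarith
  push_cast
  rw [one_div]
  apply inv_anti₀ (by positivity)
  have h3 : ((j : ℝ) + 1) ^ (2 : ℝ) ≤ ((j : ℝ) + 1) ^ (2 * q k) :=
    rpow_le_rpow_of_exponent_le hj (by linarith [q_gt hk])
  calc ((j : ℝ) + 1) ^ 2 = ((j : ℝ) + 1) ^ (2 : ℝ) := by rw [rpow_two]
    _ ≤ _ := h3

end Pool.Agent.BRS
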