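import Pool.Agent.BRS.Closed

set_option autoImplicit false

/-! The closed form bound for `C k` and the numerical bound for six-fold sums. -/

namespace Pool.Agent.BRS

open Real Finset Filter

theorem d_le (k : ℕ) (hk : 1 ≤ k) : d k ≤ 1 / (4 * (k : ℝ)) := by
  obtain ⟨j, rfl⟩ : ∃ j, k = j + 1 := ⟨k - 1, by omega⟩
  have hmono : Antitone fun j : ℕ =>
      (1 - d (j + 1)) * ((4 * ((j : ℝ) + 1)) / (4 * (j : ℝ) + 3)) := by
    apply antitone_nat_of_succ_le
    intro n
    have hd := d_succ (n + 1) (by omega)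
    have hp : 0 < 1 - d (n + 1) := by linarith [(d_mem (k := n + 1) (by omega)).2]
    rw [hd]
    push_cast
    have hn : (0 : ℝ) ≤ n := Nat.cast_nonneg n
    rw [mul_comm ((2 * ((n : ℝ) + 1) + 1) ^ 2 / (4 * (n + 1) * (n + 1 + 1))) (1 - d (n + 1)),
      mul_assoc]
    apply mul_le_mul_of_nonneg_left _ hp.le
    rw [div_mul_div_comm, div_le_div_iff₀ (by positivity) (by positivity)]
    have e : (4 * ((n : ℝ) + 1)) * (4 * (n + 1) * (n + 1 + 1) * (4 * ((n : ℝ) + 1) + 3))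
        - (2 * ((n : ℝ) + 1) + 1) ^ 2 * (4 * ((n : ℝ) + 1 + 1)) * (4 * (n : ℝ) + 3)
        = 4 * ((n : ℝ) + 2) := by ring
    have : 0 ≤ 4 * ((n : ℝ) + 2) := by positivity
    linarith
  have hlim : Tendsto (fun j : ℕ =>
      (1 - d (j + 1)) * ((4 * ((j : ℝ) + 1)) / (4 * (j : ℝ) + 3))) atTop (nhds 1) := by
    have h1 : Tendsto (fun j : ℕ => (4 * ((j : ℝ) + 1)) / (4 * (j : ℝ) + 3)) atTop
        (nhds 1) := by
      have h2 : Tendsto (fun j : ℕ => 1 / (4 * (j : ℝ) + 3)) atTop (nhds 0) := by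
        refine squeeze_zero (fun j => by positivity) (fun j => ?_)
          (tendsto_one_div_add_atTop_nhds_zero_nat (𝕜 := ℝ))
        have hj : (0 : ℝ) ≤ (j : ℝ) := Nat.cast_nonneg j
        apply one_div_le_one_div_of_le (by positivity)
        linarith
      have h3 := h2.const_add 1
      rw [add_zero] at h3
      refine h3.congr fun j => ?_
      have hj : (0 : ℝ) < 4 * (j : ℝ) + 3 := by positivity
      field_simp
      ring
    have h3 := d_tendsto.mul h1
    rwa [mul_one] at h3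
  have h := hmono.le_of_tendsto hlim j
  have hj : (0 : ℝ) < (j : ℝ) + 1 := by positivity
  have hj3 : (0 : ℝ) < 4 * (j : ℝ) + 3 := by positivity
  rw [mul_div_assoc', one_le_div (by positivity)] at h
  push_cast
  rw [le_div_iff₀ (by positivity)]
  nlinarith

theorem d_pos {k : ℕ} (hk : 1 ≤ k) : 0 < d k := by
  have h := d_lower k hk
  have hk' : (0 : ℝ) < k := by exact_mod_cast hk
  have : 0 < 1 / (4 * (k : ℝ) + 1) := by positivity
  linarith

theorem exp_neg_le {y : ℝ} (hy : 0 ≤ y) : exp (-y) ≤ 1 - y + y ^ 2 / 2 := by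
  have h := quadratic_le_exp_of_nonneg hy
  rw [exp_neg]
  have h2 : 0 < 1 - y + y ^ 2 / 2 := by nlinarith [sq_nonneg (y - 1)]
  rw [inv_le_comm₀ (exp_pos _) h2]
  refine le_trans ?_ h
  rw [inv_le_iff_one_le_mul₀ h2]
  nlinarith [sq_nonneg (y ^ 2)]

theorem S_le {k : ℕ} (hk : 1 ≤ k) {a : ℝ} (hL : 2 * d k / π ^ 2 ≤ exp (-a)) :
    S k ≤ exp (-(2 / 3 * d k) * (1 + 1 / (2 * k - 1) - (2 / 3 * d k) / (2 * k - 1)
      - exp (-(a / (2 * k - 1))))) := by
  have hk' : (1 : ℝ) ≤ k := by exact_mod_cast hk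
  have hd0 := d_pos hk
  have hd1 := (d_mem hk).2
  set n : ℝ := 2 * (k : ℝ) - 1 with hn
  have hn1 : 1 ≤ n := by rw [hn]; linarith
  have hq : q k = 1 + 1 / n := by
    unfold q
    rw [← hn]
    have : (2 * (k : ℝ)) = n + 1 := by rw [hn]; ring
    rw [this]
    field_simp
  have hn' : 1 / n ≤ 1 := by rw [div_le_one (by linarith)]; exact hn1
  have hnpos : 0 < n := by linarith
  unfold S
  have hz := zsum_le k hk
  rw [hq] at hz ⊢
  have h1 : (1 - 2 / 3 * d k) ^ (1 + 1 / n) ≤ (1 - 2 / 3 * d k) * (1 - 2 / 3 * d k / n) := by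
    rw [rpow_add (by linarith), rpow_one]
    apply mul_le_mul_of_nonneg_left _ (by linarith)
    have := rpow_one_add_le_one_add_mul_self (s := -(2 / 3 * d k)) (by linarith)
      (p := 1 / n) (by positivity) hn'
    calc (1 - 2 / 3 * d k) ^ (1 / n) = (1 + -(2 / 3 * d k)) ^ (1 / n) := by rw [← sub_eq_add_neg]
      _ ≤ _ := this
      _ = _ := by ring
  have h2 : (2 * d k / π ^ 2) ^ (1 + 1 / n) ≤ (2 * d k / π ^ 2) * exp (-(a / n)) := by
    have hp : 0 < 2 * d k / π ^ 2 := by positivity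
    rw [rpow_add hp, rpow_one]
    apply mul_le_mul_of_nonneg_left _ hp.le
    calc (2 * d k / π ^ 2) ^ (1 / n) ≤ (exp (-a)) ^ (1 / n) :=
          rpow_le_rpow hp.le hL (by positivity)
      _ = exp (-(a / n)) := by rw [← exp_mul]; congr 1; ring
  have h3 : 2 * (2 * d k / π ^ 2) ^ (1 + 1 / n) * ∑' j : ℕ, (((j : ℝ) + 1) ^ (2 * (1 + 1 / n)))⁻¹
      ≤ 2 * ((2 * d k / π ^ 2) * exp (-(a / n))) * (π ^ 2 / 6) := by
    apply mul_le_mul _ hz (tsum_nonneg fun j => by positivity) (by positivity)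
    linarith
  have h4 : 2 * ((2 * d k / π ^ 2) * exp (-(a / n))) * (π ^ 2 / 6)
      = 2 / 3 * d k * exp (-(a / n)) := by
    field_simp
    ring
  have h5 := add_one_le_exp (-(2 / 3 * d k) * (1 + 1 / n - (2 / 3 * d k) / n
      - exp (-(a / n))))
  refine le_trans (le_trans (add_le_add h1 (h3.trans_eq h4)) (le_of_eq ?_)) h5
  field_simp
  ring

theorem C_le {k : ℕ} (hk : 1 ≤ k) {a : ℝ} (ha : 0 ≤ a) (hL : 2 * d k / π ^ 2 ≤ exp (-a)) :
    C k ≤ (k.factorial : ℝ) ^ 2 * √(π * k) * exp (-(2 / 3 * d k *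
      (a - a ^ 2 / (2 * (2 * k - 1)) + 1 - 2 / 3 * d k) - d k / (1 - d k) / 2)) := by
  have hk' : (1 : ℝ) ≤ k := by exact_mod_cast hk
  have hd0 := d_pos hk
  have hd1 := (d_mem hk).2
  have hc := c_pos k
  have hS := S_le hk hL
  have hS0 : 0 ≤ S k := by
    unfold S
    have : 0 ≤ 1 - 2 / 3 * d k := by linarith
    have h2 : 0 ≤ ∑' j : ℕ, (((j : ℝ) + 1) ^ (2 * q k))⁻¹ := tsum_nonneg fun j => by positivity
    positivity
  set n : ℝ := 2 * (k : ℝ) - 1 with hn
  have hnpos : 0 < n := by rw [hn]; linarith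
  have hncast : ((2 * k - 1 : ℕ) : ℝ) = n := by
    rw [Nat.cast_sub (by omega)]
    push_cast
    rfl
  -- the power of S
  have h1 : S k ^ (2 * k - 1) ≤ exp (-(2 / 3 * d k) * (a - a ^ 2 / (2 * n) + 1 - 2 / 3 * d k)) := by
    refine (pow_le_pow_left₀ hS0 hS _).trans ?_
    rw [← exp_nat_mul, hncast]
    apply exp_le_exp.2
    have h2 := exp_neg_le (y := a / n) (by positivity)
    have h3 : n * exp (-(a / n)) ≤ n - a + a ^ 2 / (2 * n) := by
      calc n * exp (-(a / n)) ≤ n * (1 - a / n + (a / n) ^ 2 / 2) :=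
            mul_le_mul_of_nonneg_left h2 hnpos.le
        _ = _ := by field_simp
    have e : n * (-(2 / 3 * d k) * (1 + 1 / n - 2 / 3 * d k / n - exp (-(a / n))))
        = -(2 / 3 * d k) * (n + 1 - 2 / 3 * d k - n * exp (-(a / n))) := by
      field_simp
    rw [e]
    have h4 : 0 ≤ 2 / 3 * d k := by positivity
    nlinarith
  -- the factor 1 / c
  have h2 : 1 / c k ≤ √(π * k) * exp (d k / (1 - d k) / 2) := by
    have e1 : 1 - d k = π * k * c k ^ 2 := one_sub_d k
    have hpk : 0 < π * k := by positivity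
    have h3 : 1 / (1 - d k) ≤ exp (d k / (1 - d k)) := by
      have := add_one_le_exp (d k / (1 - d k))
      have e2 : d k / (1 - d k) + 1 = 1 / (1 - d k) := by
        have : 1 - d k ≠ 0 := by linarith
        field_simp
        ring
      linarith
    have h4 : (1 / c k) ^ 2 ≤ (√(π * k) * exp (d k / (1 - d k) / 2)) ^ 2 := by
      rw [mul_pow, sq_sqrt hpk.le, ← exp_nat_mul]
      have e3 : ((2 : ℕ) : ℝ) * (d k / (1 - d k) / 2) = d k / (1 - d k) := by push_cast; ring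
      rw [e3]
      have e4 : (1 / c k) ^ 2 = π * k * (1 / (1 - d k)) := by
        rw [e1]
        field_simp
      rw [e4]
      exact mul_le_mul_of_nonneg_left h3 hpk.le
    exact le_of_sq_le_sq h4 (by positivity)
  unfold C
  calc (k.factorial : ℝ) ^ 2 * S k ^ (2 * k - 1) / c k
      = (k.factorial : ℝ) ^ 2 * (S k ^ (2 * k - 1) * (1 / c k)) := by ring
    _ ≤ (k.factorial : ℝ) ^ 2 * (exp (-(2 / 3 * d k) * (a - a ^ 2 / (2 * n) + 1 - 2 / 3 * d k))
        * (√(π * k) * exp (d k / (1 - d k) / 2))) := by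
        apply mul_le_mul_of_nonneg_left _ (by positivity)
        exact mul_le_mul h1 h2 (by positivity) (by positivity)
    _ = _ := by
        have e : exp (-(2 / 3 * d k * (a - a ^ 2 / (2 * n) + 1 - 2 / 3 * d k)
            - d k / (1 - d k) / 2))
            = exp (-(2 / 3 * d k) * (a - a ^ 2 / (2 * n) + 1 - 2 / 3 * d k))
              * exp (d k / (1 - d k) / 2) := by
          rw [← exp_add]
          congr 1
          ring
        rw [e]
        ring

theorem exp_num : exp (2.98 : ℝ) ≤ 2 * π ^ 2 := by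
  have h1 : exp (2.98 : ℝ) * 1.02 ≤ exp 1 ^ 3 := by
    have h2 := add_one_le_exp (0.02 : ℝ)
    have h3 : exp (2.98 : ℝ) * 1.02 ≤ exp 2.98 * exp 0.02 :=
      mul_le_mul_of_nonneg_left (by linarith) (exp_pos _).le
    refine h3.trans (le_of_eq ?_)
    rw [← exp_add, ← exp_nat_mul]
    norm_num
  have h2 : exp (1 : ℝ) ^ 3 ≤ 2.7182818286 ^ 3 :=
    pow_le_pow_left₀ (exp_pos _).le exp_one_lt_d9.le 3
  have h3 : (3.14 : ℝ) < π := pi_gt_d2
  nlinarith

theorem log_three : log 3 ≤ 1.1 := by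
  rw [log_le_iff_le_exp (by norm_num)]
  have h2 := quadratic_le_exp_of_nonneg (show (0 : ℝ) ≤ 0.1 by norm_num)
  have h3 := exp_one_gt_d9
  have e : exp (1.1 : ℝ) = exp 1 * exp 0.1 := by rw [← exp_add]; norm_num
  rw [e]
  nlinarith [exp_pos (1 : ℝ)]

/-- the closed form -/
theorem C_closed {k : ℕ} (hk : 3 ≤ k) :
    C k ≤ (k.factorial : ℝ) ^ 2 * √(π * k) * (3 * (k : ℝ)) ^ (-(1 / (6 * (k : ℝ)))) := by
  have hk1 : 1 ≤ k := by omega
  have hk' : (3 : ℝ) ≤ k := by exact_mod_cast hk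
  have hk0 : (0 : ℝ) < k := by linarith
  have hd0 := d_pos hk1
  have hd1 := (d_mem hk1).2
  have hdl := d_lower k hk1
  have hdu := d_le k hk1
  set l := log (k : ℝ) with hl
  have hl0 : 0 ≤ l := log_nonneg (by linarith)
  have hls : l ≤ √(k : ℝ) - 0.6137 := by
    have hs0 : 0 < √(k : ℝ) := sqrt_pos.2 hk0
    have e : l = 2 * log 2 + 2 * log (√(k : ℝ) / 2) := by
      rw [log_div hs0.ne' (by norm_num), log_sqrt hk0.le, hl]
      ring
    have h2 := log_le_sub_one_of_pos (show 0 < √(k : ℝ) / 2 by positivity)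
    have h3 := log_two_lt_d9
    rw [e]
    linarith
  have hL : 2 * d k / π ^ 2 ≤ exp (-(l + 2.98)) := by
    rw [neg_add, exp_add, hl, exp_neg, exp_log hk0, exp_neg]
    have h1 := exp_num
    have h2 : (2 * π ^ 2)⁻¹ ≤ (exp (2.98 : ℝ))⁻¹ := inv_anti₀ (exp_pos _) h1
    calc 2 * d k / π ^ 2 ≤ 2 * (1 / (4 * (k : ℝ))) / π ^ 2 := by
          apply div_le_div_of_nonneg_right _ (by positivity)
          linarith
      _ = (k : ℝ)⁻¹ * (2 * π ^ 2)⁻¹ := by field_simp; norm_num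
      _ ≤ _ := mul_le_mul_of_nonneg_left h2 (by positivity)
  have hmain := C_le hk1 (a := l + 2.98) (by linarith) hL
  refine hmain.trans ?_
  apply mul_le_mul_of_nonneg_left _ (by positivity)
  rw [rpow_def_of_pos (by positivity), log_mul (by norm_num) hk0.ne', ← hl]
  apply exp_le_exp.2
  -- the main inequality
  have hB : (l + 1.1) * (1 + 1 / (4 * (k : ℝ))) ≤ (l + 2.98) - (l + 2.98) ^ 2 / (2 * (2 * k - 1))
      + 1 - 2 / 3 * d k - 3 / 4 * (1 / (1 - d k)) := by
    have h1 : 1 / (1 - d k) ≤ 1 + 3 / (11 * k) := by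
      rw [div_le_iff₀ (by linarith)]
      have h2 : d k * k ≤ 1 / 4 := by
        calc d k * k ≤ 1 / (4 * (k : ℝ)) * k := mul_le_mul_of_nonneg_right hdu hk0.le
          _ = 1 / 4 := by field_simp
      have e : (1 + 3 / (11 * (k : ℝ))) * (1 - d k)
          = 1 + (3 / 11 * (1 - d k) - d k * k) / k := by field_simp; ring
      rw [e]
      have h3 : d k ≤ 1 / 12 := hdu.trans (by
        apply one_div_le_one_div_of_le (by norm_num); linarith)
      have : 0 ≤ (3 / 11 * (1 - d k) - d k * k) / k := by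
        apply div_nonneg _ hk0.le
        linarith
      linarith
    have h2 : (l + 2.98) ^ 2 / (2 * (2 * k - 1)) ≤ (l + 2.98) ^ 2 * (3 / (10 * k)) := by
      rw [div_eq_mul_one_div]
      apply mul_le_mul_of_nonneg_left _ (by positivity)
      rw [div_le_div_iff₀ (by linarith) (by positivity)]
      linarith
    have h3 : (l + 1.1) / 4 + 1 / 6 + 9 / 44 + 3 / 10 * (l + 2.98) ^ 2 ≤ 2.13 * k := by
      have hs : √(k : ℝ) ^ 2 = k := sq_sqrt hk0.le
      have hs1 : (1.7 : ℝ) ≤ √(k : ℝ) := by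
        apply le_sqrt_of_sq_le
        norm_num
        linarith
      set s := √(k : ℝ) with hsd
      have h4 : (l + 2.98) ^ 2 ≤ (s - 0.6137 + 2.98) ^ 2 :=
        pow_le_pow_left₀ (by linarith) (by linarith) 2
      have h5 : 2.13 * (k : ℝ) = 2.13 * s ^ 2 := by rw [hs]
      rw [h5]
      have h6 : (3 : ℝ) ≤ s ^ 2 := by rw [hs]; exact hk'
      have h7 : s ≤ 5 / 17 * s ^ 2 + 17 / 20 := by
        have := sq_nonneg (s - 17 / 10)
        linarith
      nlinarith
    have e : (l + 1.1) * (1 + 1 / (4 * (k : ℝ)))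
        = l + 1.1 + ((l + 1.1) / 4) / k := by field_simp
    rw [e]
    have h4 : ((l + 1.1) / 4 + 1 / 6 + 9 / 44 + 3 / 10 * (l + 2.98) ^ 2) / k ≤ 2.13 := by
      rw [div_le_iff₀ hk0]
      exact h3
    have e5 : ((l + 1.1) / 4 + 1 / 6 + 9 / 44 + 3 / 10 * (l + 2.98) ^ 2) / k
        = ((l + 1.1) / 4) / k + 2 / 3 * (1 / (4 * (k : ℝ))) + 3 / 4 * (3 / (11 * (k : ℝ)))
          + (l + 2.98) ^ 2 * (3 / (10 * (k : ℝ))) := by
      field_simp
      ring
    linarith
  have hR : (l + 1.1) / (6 * k) ≤ 2 / 3 * d k * ((l + 1.1) * (1 + 1 / (4 * (k : ℝ)))) := by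
    calc (l + 1.1) / (6 * k) = 2 / 3 * (1 / (4 * (k : ℝ) + 1))
          * ((l + 1.1) * (1 + 1 / (4 * (k : ℝ)))) := by
          field_simp
          ring
      _ ≤ _ := by
          apply mul_le_mul_of_nonneg_right _ (by positivity)
          linarith
  have h5 : 2 / 3 * d k * ((l + 1.1) * (1 + 1 / (4 * (k : ℝ))))
      ≤ 2 / 3 * d k * ((l + 2.98) - (l + 2.98) ^ 2 / (2 * (2 * k - 1))
      + 1 - 2 / 3 * d k - 3 / 4 * (1 / (1 - d k))) :=
    mul_le_mul_of_nonneg_left hB (by positivity)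
  have e6 : 2 / 3 * d k * ((l + 2.98) - (l + 2.98) ^ 2 / (2 * (2 * k - 1))
      + 1 - 2 / 3 * d k - 3 / 4 * (1 / (1 - d k)))
      = 2 / 3 * d k * ((l + 2.98) - (l + 2.98) ^ 2 / (2 * (2 * k - 1))
      + 1 - 2 / 3 * d k) - d k / (1 - d k) / 2 := by ring
  have h7 : (log 3 + l) / (6 * k) ≤ (l + 1.1) / (6 * k) := by
    apply div_le_div_of_nonneg_right _ (by positivity)
    linarith [log_three]
  have e8 : (log 3 + l) * -(1 / (6 * (k : ℝ))) = -((log 3 + l) / (6 * k)) := by ring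
  rw [e8]
  linarith

end Pool.Agent.BRS
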