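import Pool.Agent.BRS.Defs

set_option autoImplicit false

/-! Counting solutions of `sum a + sum x = sum b + sum c + sum y`. -/

namespace Pool.Agent.BRS

open Finset

/-- tuples with entries in `A` -/
abbrev tup (A : Finset ℕ) (k : ℕ) : Finset (Fin k → ℕ) := Fintype.piFinset fun _ : Fin k => A

theorem card_tup (A : Finset ℕ) (k : ℕ) : (tup A k).card = A.card ^ k := by
  simp [tup]

/-- functions with the same multiset of values -/
theorem card_same {k : ℕ} (T : Finset (Fin k → ℕ))
    (h : ∀ f ∈ T, ∀ g ∈ T, List.Perm (List.ofFn f) (List.ofFn g)) : T.card ≤ k.factorial := by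
  classical
  rcases T.eq_empty_or_nonempty with rfl | ⟨f₀, hf₀⟩
  · simp
  · have h1 : T.card ≤ ((List.ofFn f₀).permutations.toFinset).card := by
      apply Finset.card_le_card_of_injOn (fun f => List.ofFn f)
      · intro f hf
        simp only [Finset.mem_coe, List.mem_toFinset, List.mem_permutations]
        exact h f hf f₀ hf₀
      · intro f _ g _ hfg
        exact List.ofFn_injective hfg
    refine h1.trans ((List.toFinset_card_le _).trans ?_)
    rw [List.length_permutations, List.length_ofFn]

theorem card_same2 {k l : ℕ} (T : Finset ((Fin k → ℕ) × (Fin l → ℕ)))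
    (h : ∀ f ∈ T, ∀ g ∈ T, List.Perm (List.ofFn f.1) (List.ofFn g.1) ∧
      List.Perm (List.ofFn f.2) (List.ofFn g.2)) :
    T.card ≤ k.factorial * l.factorial := by
  classical
  have h1 : T ⊆ (T.image Prod.fst) ×ˢ (T.image Prod.snd) := by
    intro p hp
    rw [Finset.mem_product]
    exact ⟨Finset.mem_image_of_mem _ hp, Finset.mem_image_of_mem _ hp⟩
  refine (Finset.card_le_card h1).trans ?_
  rw [Finset.card_product]
  refine Nat.mul_le_mul (card_same _ ?_) (card_same _ ?_)
  · intro f hf g hg
    obtain ⟨p, hp, rfl⟩ := Finset.mem_image.1 hf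
    obtain ⟨p', hp', rfl⟩ := Finset.mem_image.1 hg
    exact (h p hp p' hp').1
  · intro f hf g hg
    obtain ⟨p, hp, rfl⟩ := Finset.mem_image.1 hf
    obtain ⟨p', hp', rfl⟩ := Finset.mem_image.1 hg
    exact (h p hp p' hp').2

/-- disjoint pairs with the same difference of sums have the same multisets -/
theorem same_of_distinct {k l : ℕ} {A : Finset ℕ} (hA : DistinctSums (k + l) A)
    {a a' : Fin k → ℕ} {b b' : Fin l → ℕ} (ha : ∀ i, a i ∈ A) (ha' : ∀ i, a' i ∈ A)
    (hb : ∀ i, b i ∈ A) (hb' : ∀ i, b' i ∈ A) (hab : ∀ i j, a i ≠ b j)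
    (hab' : ∀ i j, a' i ≠ b' j) (h : ∑ i, a i + ∑ i, b' i = ∑ i, a' i + ∑ i, b i) :
    List.Perm (List.ofFn a) (List.ofFn a') ∧ List.Perm (List.ofFn b) (List.ofFn b') := by
  classical
  have key := hA ((List.ofFn a : Multiset ℕ) + (List.ofFn b' : Multiset ℕ))
    ((List.ofFn a' : Multiset ℕ) + (List.ofFn b : Multiset ℕ)) (by simp) (by simp) ?_ ?_ ?_
  · have hcount : ∀ x : ℕ, Multiset.count x (List.ofFn a : Multiset ℕ)
        + Multiset.count x (List.ofFn b' : Multiset ℕ)
        = Multiset.count x (List.ofFn a' : Multiset ℕ)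
        + Multiset.count x (List.ofFn b : Multiset ℕ) := by
      intro x
      rw [← Multiset.count_add, ← Multiset.count_add, key]
    have hz : ∀ x : ℕ, Multiset.count x (List.ofFn a : Multiset ℕ) = 0 ∨
        Multiset.count x (List.ofFn b : Multiset ℕ) = 0 := by
      intro x
      by_contra hne
      push Not at hne
      have h1 := Multiset.count_pos.1 (Nat.pos_of_ne_zero hne.1)
      have h2 := Multiset.count_pos.1 (Nat.pos_of_ne_zero hne.2)
      rw [Multiset.mem_coe, List.mem_ofFn'] at h1 h2
      obtain ⟨i, hi⟩ := h1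
      obtain ⟨j, hj⟩ := h2
      exact hab i j (hi.trans hj.symm)
    have hz' : ∀ x : ℕ, Multiset.count x (List.ofFn a' : Multiset ℕ) = 0 ∨
        Multiset.count x (List.ofFn b' : Multiset ℕ) = 0 := by
      intro x
      by_contra hne
      push Not at hne
      have h1 := Multiset.count_pos.1 (Nat.pos_of_ne_zero hne.1)
      have h2 := Multiset.count_pos.1 (Nat.pos_of_ne_zero hne.2)
      rw [Multiset.mem_coe, List.mem_ofFn'] at h1 h2
      obtain ⟨i, hi⟩ := h1
      obtain ⟨j, hj⟩ := h2
      exact hab' i j (hi.trans hj.symm)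
    constructor
    · apply Multiset.coe_eq_coe.1
      ext x
      have h1 := hcount x
      rcases hz x with h2 | h2 <;> rcases hz' x with h3 | h3 <;> omega
    · apply Multiset.coe_eq_coe.1
      ext x
      have h1 := hcount x
      rcases hz x with h2 | h2 <;> rcases hz' x with h3 | h3 <;> omega
  · intro x hx
    rw [Multiset.mem_add, Multiset.mem_coe, Multiset.mem_coe, List.mem_ofFn', List.mem_ofFn'] at hx
    rcases hx with ⟨i, rfl⟩ | ⟨i, rfl⟩
    · exact ha i
    · exact hb' i
  · intro x hx
    rw [Multiset.mem_add, Multiset.mem_coe, Multiset.mem_coe, List.mem_ofFn', List.mem_ofFn'] at hx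
    rcases hx with ⟨i, rfl⟩ | ⟨i, rfl⟩
    · exact ha' i
    · exact hb i
  · rw [Multiset.sum_add, Multiset.sum_add, Multiset.sum_coe, Multiset.sum_coe, Multiset.sum_coe,
      Multiset.sum_coe, List.sum_ofFn, List.sum_ofFn, List.sum_ofFn, List.sum_ofFn]
    exact h

end Pool.Agent.BRS
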