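import Pool.Agent.BRS.Count

set_option autoImplicit false

/-! The bound for the number of solutions. -/

namespace Pool.Agent.BRS

open Finset

/-- the index type of the solutions -/
abbrev Idx (k l m : ℕ) : Type :=
  ((Fin k → ℕ) × (Fin k → ℕ)) × (((Fin l → ℕ) × (Fin m → ℕ)) × (Fin k → ℕ))

/-- the box of all tuples -/
def box (A : Finset ℕ) (u k l m : ℕ) : Finset (Idx k l m) :=
  (tup A k ×ˢ tup (range u) k) ×ˢ ((tup A l ×ˢ tup A m) ×ˢ tup (range u) k)

/-- the equation -/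
def Eqn {k l m : ℕ} (p : Idx k l m) : Prop :=
  ∑ i, p.1.1 i + ∑ i, p.1.2 i = ∑ i, p.2.1.1 i + ∑ i, p.2.1.2 i + ∑ i, p.2.2 i

instance {k l m : ℕ} (p : Idx k l m) : Decidable (Eqn p) := by unfold Eqn; infer_instance

/-- the number of solutions -/
def X (A : Finset ℕ) (u k l m : ℕ) : ℕ := ((box A u k l m).filter Eqn).card

theorem mem_box {A : Finset ℕ} {u k l m : ℕ} {p : Idx k l m} : p ∈ box A u k l m ↔
    ((∀ i, p.1.1 i ∈ A) ∧ (∀ i, p.1.2 i ∈ range u)) ∧
      ((∀ i, p.2.1.1 i ∈ A) ∧ (∀ i, p.2.1.2 i ∈ A)) ∧ (∀ i, p.2.2 i ∈ range u) := by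
  unfold box tup
  simp only [Finset.mem_product, Fintype.mem_piFinset]

theorem good_le {A : Finset ℕ} {u k l m : ℕ} (hA : DistinctSums (k + l) A) :
    (((box A u k l m).filter Eqn).filter fun p => ∀ i j, p.1.1 i ≠ p.2.1.1 j).card
      ≤ k.factorial * l.factorial * (A.card ^ m * u ^ (2 * k)) := by
  classical
  have hmap : ∀ p ∈ (((box A u k l m).filter Eqn).filter fun p => ∀ i j, p.1.1 i ≠ p.2.1.1 j),
      (p.1.2, p.2.1.2, p.2.2) ∈ tup (range u) k ×ˢ (tup A m ×ˢ tup (range u) k) := by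
    intro p hp
    rw [Finset.mem_filter, Finset.mem_filter, mem_box] at hp
    simp only [Finset.mem_product, tup, Fintype.mem_piFinset]
    exact ⟨hp.1.1.1.2, hp.1.1.2.1.2, hp.1.1.2.2⟩
  have h := Finset.card_le_mul_card_image_of_maps_to hmap (k.factorial * l.factorial) ?_
  · refine h.trans (le_of_eq ?_)
    rw [Finset.card_product, Finset.card_product, card_tup, card_tup, Finset.card_range]
    ring
  · intro z hz
    have h1 : ((((box A u k l m).filter Eqn).filter fun p => ∀ i j, p.1.1 i ≠ p.2.1.1 j).filter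
        fun p => (p.1.2, p.2.1.2, p.2.2) = z).card
        ≤ (((((box A u k l m).filter Eqn).filter fun p => ∀ i j, p.1.1 i ≠ p.2.1.1 j).filter
        fun p => (p.1.2, p.2.1.2, p.2.2) = z).image fun p => (p.1.1, p.2.1.1)).card := by
      rw [Finset.card_image_of_injOn]
      intro p hp p' hp' hpp
      rw [Finset.mem_coe, Finset.mem_filter] at hp hp'
      obtain ⟨⟨a, x⟩, ⟨⟨b, c⟩, y⟩⟩ := p
      obtain ⟨⟨a', x'⟩, ⟨⟨b', c'⟩, y'⟩⟩ := p'
      have h2 := hp.2.trans hp'.2.symm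
      simp only [Prod.mk.injEq] at h2 hpp ⊢
      obtain ⟨h3, h4, h5⟩ := h2
      obtain ⟨h6, h7⟩ := hpp
      exact ⟨⟨h6, h3⟩, ⟨h7, h4⟩, h5⟩
    refine h1.trans (card_same2 _ ?_)
    intro f hf g hg
    obtain ⟨p, hp, rfl⟩ := Finset.mem_image.1 hf
    obtain ⟨p', hp', rfl⟩ := Finset.mem_image.1 hg
    rw [Finset.mem_filter, Finset.mem_filter, Finset.mem_filter, mem_box] at hp hp'
    obtain ⟨⟨⟨hp1, hp2⟩, hp3⟩, hp4⟩ := hp
    obtain ⟨⟨⟨hq1, hq2⟩, hq3⟩, hq4⟩ := hp'
    have h2 := hp4.trans hq4.symm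
    simp only [Prod.mk.injEq] at h2
    obtain ⟨h3, h4, h5⟩ := h2
    refine same_of_distinct hA hp1.1.1 hq1.1.1 hp1.2.1.1 hq1.2.1.1 hp3 hq3 ?_
    unfold Eqn at hp2 hq2
    rw [h3, h4, h5] at hp2
    change ∑ i, p.1.1 i + ∑ i, p'.2.1.1 i = ∑ i, p'.1.1 i + ∑ i, p.2.1.1 i
    omega

theorem bad_le (A : Finset ℕ) (u k l m : ℕ) (hk : k + 1 = (l + 1) + m) (i : Fin (k + 1))
    (j : Fin (l + 1)) :
    (((box A u (k + 1) (l + 1) m).filter Eqn).filter fun p => p.1.1 i = p.2.1.1 j).card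
      ≤ A.card ^ (2 * k + 1) * u ^ (2 * k + 1) := by
  classical
  have hc : A.card ^ (2 * k + 1) * u ^ (2 * k + 1)
      = ((tup A (k + 1) ×ˢ tup (range u) (k + 1)) ×ˢ
        ((tup A l ×ˢ tup A m) ×ˢ tup (range u) k)).card := by
    rw [Finset.card_product, Finset.card_product, Finset.card_product, Finset.card_product,
      card_tup, card_tup, card_tup, card_tup, card_tup, Finset.card_range]
    have h1 : 2 * k + 1 = (k + 1) + (l + m) := by omega
    have h2 : A.card ^ (2 * k + 1) = A.card ^ (k + 1) * (A.card ^ l * A.card ^ m) := by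
      rw [← pow_add, ← pow_add, ← h1]
    rw [h2]
    ring
  rw [hc]
  apply Finset.card_le_card_of_injOn
    (fun p : Idx (k + 1) (l + 1) m => (((p.1.1, p.1.2), ((j.removeNth p.2.1.1, p.2.1.2),
      Fin.tail p.2.2)) : ((Fin (k + 1) → ℕ) × (Fin (k + 1) → ℕ)) ×
        (((Fin l → ℕ) × (Fin m → ℕ)) × (Fin k → ℕ))))
  · intro p hp
    rw [Finset.mem_coe, Finset.mem_filter, Finset.mem_filter, mem_box] at hp
    obtain ⟨⟨hp1, hp2⟩, hp3⟩ := hp
    simp only [Finset.mem_coe, Finset.mem_product, tup, Fintype.mem_piFinset]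
    exact ⟨⟨hp1.1.1, hp1.1.2⟩, ⟨fun s => hp1.2.1.1 _, hp1.2.1.2⟩, fun s => hp1.2.2 _⟩
  · intro p hp p' hp' hpp
    rw [Finset.mem_coe, Finset.mem_filter, Finset.mem_filter] at hp hp'
    obtain ⟨⟨hp1, hp2⟩, hp3⟩ := hp
    obtain ⟨⟨hq1, hq2⟩, hq3⟩ := hp'
    obtain ⟨⟨a, x⟩, ⟨⟨b, c⟩, y⟩⟩ := p
    obtain ⟨⟨a', x'⟩, ⟨⟨b', c'⟩, y'⟩⟩ := p'
    simp only [Prod.mk.injEq] at hpp
    obtain ⟨⟨h1, h2⟩, ⟨h3, h4⟩, h5⟩ := hpp
    subst h1 h2 h4
    have hb : b = b' := by
      rw [← Fin.insertNth_self_removeNth j b, ← Fin.insertNth_self_removeNth j b', h3]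
      congr 1
      simp only at hp3 hq3
      rw [← hp3, ← hq3]
    subst hb
    have hy : y = y' := by
      have h6 : y 0 = y' 0 := by
        unfold Eqn at hp2 hq2
        simp only at hp2 hq2
        rw [Fin.sum_univ_succ (f := y)] at hp2
        rw [Fin.sum_univ_succ (f := y')] at hq2
        have h7 : ∀ s : Fin k, y s.succ = y' s.succ := fun s => congrFun h5 s
        simp only [h7] at hp2
        omega
      funext s
      refine Fin.cases h6 (fun s => congrFun h5 s) s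
    subst hy
    rfl

/-- the number of solutions for a set with distinct `k + l`-fold sums, `k = l + m` -/
theorem X_le {A : Finset ℕ} {u k l m : ℕ} (hA : DistinctSums (k + l) A) (hk : k = l + m) :
    X A u k l m ≤ k.factorial * l.factorial * (A.card ^ m * u ^ (2 * k))
      + k * l * (A.card ^ (2 * k - 1) * u ^ (2 * k - 1)) := by
  classical
  unfold X
  rw [← Finset.card_filter_add_card_filter_not (s := (box A u k l m).filter Eqn)
    (fun p => ∀ i j, p.1.1 i ≠ p.2.1.1 j)]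
  refine Nat.add_le_add (good_le hA) ?_
  rcases l with _ | l
  · refine le_of_eq_of_le ?_ (Nat.zero_le _)
    rw [Finset.card_eq_zero, Finset.filter_eq_empty_iff]
    intro p _ hne
    exact hne fun i j => j.elim0
  · obtain ⟨k, rfl⟩ : ∃ k', k = k' + 1 := ⟨l + m, by omega⟩
    have h1 : (((box A u (k + 1) (l + 1) m).filter Eqn).filter
        fun p => ¬ ∀ i j, p.1.1 i ≠ p.2.1.1 j) ⊆
        (univ : Finset (Fin (k + 1) × Fin (l + 1))).biUnion fun ij =>
          (((box A u (k + 1) (l + 1) m).filter Eqn).filter fun p => p.1.1 ij.1 = p.2.1.1 ij.2) := by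
      intro p hp
      rw [Finset.mem_filter] at hp
      obtain ⟨hp1, hp2⟩ := hp
      push Not at hp2
      obtain ⟨i, j, hij⟩ := hp2
      rw [Finset.mem_biUnion]
      exact ⟨(i, j), Finset.mem_univ _, Finset.mem_filter.2 ⟨hp1, hij⟩⟩
    refine (Finset.card_le_card h1).trans ?_
    refine (Finset.card_biUnion_le).trans ?_
    have h2 : 2 * (k + 1) - 1 = 2 * k + 1 := by omega
    rw [h2]
    calc ∑ ij : Fin (k + 1) × Fin (l + 1), (((box A u (k + 1) (l + 1) m).filter Eqn).filter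
          fun p => p.1.1 ij.1 = p.2.1.1 ij.2).card
        ≤ ∑ _ij : Fin (k + 1) × Fin (l + 1), A.card ^ (2 * k + 1) * u ^ (2 * k + 1) :=
          Finset.sum_le_sum fun ij _ => bad_le A u k l m (by omega) ij.1 ij.2
      _ = (k + 1) * (l + 1) * (A.card ^ (2 * k + 1) * u ^ (2 * k + 1)) := by
          rw [Finset.sum_const, Finset.card_univ, Fintype.card_prod, Fintype.card_fin,
            Fintype.card_fin, smul_eq_mul]

end Pool.Agent.BRS
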