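import Mathlib

set_option autoImplicit false

/-! Definitions for the upper bounds on sets with distinct `r`-fold sums (MP_1c1e37_nt). -/

namespace Pool.Agent.BRS

/-- distinct `r`-fold sums -/
def DistinctSums (r : ℕ) (A : Finset ℕ) : Prop :=
  ∀ m₁ m₂ : Multiset ℕ, Multiset.card m₁ = r → Multiset.card m₂ = r →
    (∀ x ∈ m₁, x ∈ A) → (∀ x ∈ m₂, x ∈ A) → m₁.sum = m₂.sum → m₁ = m₂

open Classical in
/-- the largest size of a subset of `{1, ..., N}` with distinct `r`-fold sums -/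
noncomputable def f (r N : ℕ) : ℕ :=
  ((Finset.Icc 1 N).powerset.filter (DistinctSums r)).sup Finset.card

/-- `binom(2k,k) / 4^k` -/
noncomputable def c (k : ℕ) : ℝ := (Nat.centralBinom k : ℝ) / 4 ^ k

/-- `1 - pi k c_k^2` -/
noncomputable def d (k : ℕ) : ℝ := 1 - Real.pi * k * c k ^ 2

/-- the exponent `2k / (2k - 1)` -/
noncomputable def q (k : ℕ) : ℝ := 2 * k / (2 * k - 1)

/-- the dual sum -/
noncomputable def S (k : ℕ) : ℝ :=
  (1 - 2 / 3 * d k) ^ q k
    + 2 * (2 * d k / Real.pi ^ 2) ^ q k * ∑' j : ℕ, (((j : ℝ) + 1) ^ (2 * q k))⁻¹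

/-- the constant for `2k`-fold sums -/
noncomputable def C (k : ℕ) : ℝ := (k.factorial : ℝ) ^ 2 * S k ^ (2 * k - 1) / c k

end Pool.Agent.BRS
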