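import Pool.Agent.BRS.Defs

set_option autoImplicit false

/-! The kernel `J n x = int_0^(pi/2) cos(2xt) cos^n t dt`. -/

namespace Pool.Agent.BRS

open Real intervalIntegral

/-- the kernel -/
noncomputable def J (n : ℕ) (x : ℝ) : ℝ := ∫ t in (0 : ℝ)..π / 2, cos (2 * x * t) * cos t ^ n

theorem J_rec_ne (n : ℕ) {x : ℝ} (hx : x ≠ 0) :
    (1 - 4 * x ^ 2 / ((n : ℝ) + 2) ^ 2) * J (n + 2) x = ((n : ℝ) + 1) / ((n : ℝ) + 2) * J n x := by
  have h := EulerSine.integral_cos_mul_cos_pow (z := (x : ℂ)) (n := n + 2) (by omega)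
    (by exact_mod_cast hx)
  have e1 : ∀ m : ℕ, (∫ t in (0 : ℝ)..π / 2, Complex.cos (2 * (x : ℂ) * t) * (cos t : ℂ) ^ m)
      = ((J m x : ℝ) : ℂ) := by
    intro m
    unfold J
    rw [← intervalIntegral.integral_ofReal]
    refine intervalIntegral.integral_congr fun t _ => ?_
    push_cast
    ring
  rw [e1, show n + 2 - 2 = n from rfl, e1] at h
  have h2 : (((1 - 4 * x ^ 2 / ((n : ℝ) + 2) ^ 2) * J (n + 2) x : ℝ) : ℂ)
      = ((((n : ℝ) + 1) / ((n : ℝ) + 2) * J n x : ℝ) : ℂ) := by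
    push_cast
    push_cast at h
    rw [h]
    ring
  exact_mod_cast h2

theorem J_rec_zero (n : ℕ) : J (n + 2) 0 = ((n : ℝ) + 1) / ((n : ℝ) + 2) * J n 0 := by
  unfold J
  simp only [mul_zero, zero_mul, cos_zero, one_mul]
  rw [integral_cos_pow]
  simp

theorem J_rec (n : ℕ) (x : ℝ) :
    (1 - 4 * x ^ 2 / ((n : ℝ) + 2) ^ 2) * J (n + 2) x = ((n : ℝ) + 1) / ((n : ℝ) + 2) * J n x := by
  by_cases hx : x = 0
  · subst hx
    rw [J_rec_zero]
    ring
  · exact J_rec_ne n hx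

theorem J_half (n : ℕ) : J n (1 / 2) = J (n + 1) 0 := by
  unfold J
  refine intervalIntegral.integral_congr fun t _ => ?_
  simp only [mul_zero, zero_mul, cos_zero, one_mul]
  rw [show 2 * (1 / 2 : ℝ) * t = t by ring, pow_succ]
  ring

theorem J_zero_pos (n : ℕ) : 0 < J n 0 := by
  unfold J
  simp only [mul_zero, zero_mul, cos_zero, one_mul]
  exact EulerSine.integral_cos_pow_pos n

theorem J_half_le (n : ℕ) {x : ℝ} (hx : |x| ≤ 1 / 2) : J n (1 / 2) ≤ J n x := by
  unfold J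
  apply intervalIntegral.integral_mono_on (by positivity)
  · exact Continuous.intervalIntegrable (by fun_prop) _ _
  · exact Continuous.intervalIntegrable (by fun_prop) _ _
  · intro t ht
    have hc : 0 ≤ cos t := cos_nonneg_of_mem_Icc ⟨by linarith [ht.1, pi_pos], ht.2⟩
    apply mul_le_mul_of_nonneg_right _ (pow_nonneg hc n)
    rw [show 2 * (1 / 2 : ℝ) * t = t by ring, ← cos_abs (2 * x * t)]
    apply cos_le_cos_of_nonneg_of_le_pi (abs_nonneg _) (by linarith [ht.2, pi_pos])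
    rw [abs_mul, abs_mul, abs_two, abs_of_nonneg ht.1]
    nlinarith [ht.1, abs_nonneg x]

theorem J_pos (n : ℕ) {x : ℝ} (hx : |x| ≤ 1 / 2) : 0 < J n x := by
  refine lt_of_lt_of_le ?_ (J_half_le n hx)
  rw [J_half]
  exact J_zero_pos _

/-- finite products -/
noncomputable def al : ℕ → ℕ → ℝ
  | _, 0 => 1
  | n, m + 1 => (1 - 1 / ((n : ℝ) + 2) ^ 2) * al (n + 2) m

theorem al_mem (m : ℕ) : ∀ n : ℕ, 0 ≤ al n m ∧ al n m ≤ 1 := by
  induction m with
  | zero => intro n; exact ⟨zero_le_one, le_rfl⟩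
  | succ m ih =>
    intro n
    have h1 := ih (n + 2)
    have h2 : 1 / ((n : ℝ) + 2) ^ 2 ≤ 1 := by
      rw [div_le_one (by positivity)]
      have : (0 : ℝ) ≤ n := Nat.cast_nonneg n
      nlinarith
    have h3 : 0 ≤ 1 / ((n : ℝ) + 2) ^ 2 := by positivity
    unfold al
    constructor
    · exact mul_nonneg (by linarith) h1.1
    · nlinarith [h1.1, h1.2]

theorem chord_fin {x : ℝ} (hx : |x| ≤ 1 / 2) (m : ℕ) : ∀ n : ℕ,
    J n (1 / 2) ≤ ((1 - 4 * x ^ 2) * al n m + 4 * x ^ 2) * J n x := by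
  have hx2 : x ^ 2 ≤ 1 / 4 := by
    have := sq_le_sq' (by linarith [abs_nonneg x]) hx
    rw [sq_abs] at this
    linarith
  have hx0 : 0 ≤ x ^ 2 := sq_nonneg x
  induction m with
  | zero =>
    intro n
    have h := J_half_le n hx
    have : (1 - 4 * x ^ 2) * al n 0 + 4 * x ^ 2 = 1 := by
      show (1 - 4 * x ^ 2) * 1 + 4 * x ^ 2 = 1
      ring
    rw [this, one_mul]
    exact h
  | succ m ih =>
    intro n
    have h1 := ih (n + 2)
    have h2 := J_rec n x
    have h3 := J_rec n (1 / 2)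
    have h4 := al_mem m (n + 2)
    have hJ := J_pos (n + 2) hx
    have hn : (0 : ℝ) ≤ n := Nat.cast_nonneg n
    set δ : ℝ := 1 / ((n : ℝ) + 2) ^ 2 with hδ
    have hδ0 : 0 ≤ δ := by rw [hδ]; positivity
    have hδ1 : δ ≤ 1 := by
      rw [hδ, div_le_one (by positivity)]
      nlinarith
    set w : ℝ := 4 * x ^ 2 with hw
    have hw0 : 0 ≤ w := by rw [hw]; linarith
    have hw1 : w ≤ 1 := by rw [hw]; linarith
    have e1 : 4 * x ^ 2 / ((n : ℝ) + 2) ^ 2 = δ * w := by rw [hδ, hw]; ring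
    have e2 : 4 * (1 / 2 : ℝ) ^ 2 / ((n : ℝ) + 2) ^ 2 = δ := by rw [hδ]; ring
    rw [e2] at h3
    have e3 : w / ((n : ℝ) + 2) ^ 2 = δ * w := by rw [hδ]; ring
    rw [e3] at h2
    have hr : 0 < ((n : ℝ) + 1) / ((n : ℝ) + 2) := by positivity
    have hal : al n (m + 1) = (1 - δ) * al (n + 2) m := rfl
    rw [hal]
    set α : ℝ := al (n + 2) m
    -- multiply by r
    have key : ((n : ℝ) + 1) / ((n : ℝ) + 2) * J n (1 / 2)
        ≤ ((n : ℝ) + 1) / ((n : ℝ) + 2) * (((1 - w) * ((1 - δ) * α) + w) * J n x) := by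
      have e4 : ((n : ℝ) + 1) / ((n : ℝ) + 2) * (((1 - w) * ((1 - δ) * α) + w) * J n x)
          = ((1 - w) * ((1 - δ) * α) + w) * ((1 - δ * w) * J (n + 2) x) := by
        rw [h2]; ring
      rw [e4, ← h3]
      have h5 : (1 - δ) * J (n + 2) (1 / 2)
          ≤ (1 - δ) * (((1 - w) * α + w) * J (n + 2) x) :=
        mul_le_mul_of_nonneg_left h1 (by linarith)
      refine h5.trans ?_
      have h6 : (1 - δ) * ((1 - w) * α + w) ≤ ((1 - w) * ((1 - δ) * α) + w) * (1 - δ * w) := by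
        have h7 : ((1 - w) * ((1 - δ) * α) + w) * (1 - δ * w) - (1 - δ) * ((1 - w) * α + w)
            = w * δ * (1 - w) * (1 - (1 - δ) * α) := by ring
        have h8 : 0 ≤ w * δ * (1 - w) * (1 - (1 - δ) * α) := by
          apply mul_nonneg
          · exact mul_nonneg (mul_nonneg hw0 hδ0) (by linarith)
          · nlinarith [h4.1, h4.2]
        linarith
      calc (1 - δ) * (((1 - w) * α + w) * J (n + 2) x)
          = ((1 - δ) * ((1 - w) * α + w)) * J (n + 2) x := by ring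
        _ ≤ (((1 - w) * ((1 - δ) * α) + w) * (1 - δ * w)) * J (n + 2) x :=
            mul_le_mul_of_nonneg_right h6 hJ.le
        _ = ((1 - w) * ((1 - δ) * α) + w) * ((1 - δ * w) * J (n + 2) x) := by ring
    exact le_of_mul_le_mul_left key hr

theorem al_eq (m : ℕ) : ∀ n : ℕ,
    al n m * (J (n + 2 * m) (1 / 2) / J (n + 2 * m) 0) = J n (1 / 2) / J n 0 := by
  induction m with
  | zero => intro n; show 1 * _ = _; rw [one_mul, mul_zero, add_zero]
  | succ m ih =>
    intro n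
    have h1 := ih (n + 2)
    have h3 := J_rec n (1 / 2)
    have h4 := J_rec_zero n
    have e : n + 2 * (m + 1) = n + 2 + 2 * m := by ring
    have hal : al n (m + 1) = (1 - 1 / ((n : ℝ) + 2) ^ 2) * al (n + 2) m := rfl
    rw [e, hal, mul_assoc, h1]
    have e2 : 4 * (1 / 2 : ℝ) ^ 2 / ((n : ℝ) + 2) ^ 2 = 1 / ((n : ℝ) + 2) ^ 2 := by ring
    rw [e2] at h3
    have hp := J_zero_pos n
    have hp2 := J_zero_pos (n + 2)
    rw [← mul_div_assoc, h3, h4]
    have hn : (0 : ℝ) ≤ n := Nat.cast_nonneg n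
    field_simp

theorem ratio_tendsto :
    Filter.Tendsto (fun n : ℕ => J n (1 / 2) / J n 0) Filter.atTop (nhds 1) := by
  have h := EulerSine.tendsto_integral_cos_pow_mul_div (f := fun t : ℝ => (cos t : ℂ))
    (by fun_prop)
  have e : (fun n : ℕ => (∫ x in (0 : ℝ)..π / 2, (cos x : ℂ) ^ n * (cos x : ℂ)) /
      ((∫ x in (0 : ℝ)..π / 2, cos x ^ n : ℝ) : ℂ))
      = fun n : ℕ => ((J n (1 / 2) / J n 0 : ℝ) : ℂ) := by
    funext n
    rw [Complex.ofReal_div]
    congr 1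
    · unfold J
      rw [← intervalIntegral.integral_ofReal]
      refine intervalIntegral.integral_congr fun t _ => ?_
      rw [show 2 * (1 / 2 : ℝ) * t = t by ring]
      push_cast
      ring
    · unfold J
      simp only [mul_zero, zero_mul, cos_zero, one_mul]
  rw [e] at h
  have h2 : Filter.Tendsto (fun n : ℕ => ((J n (1 / 2) / J n 0 : ℝ) : ℂ)) Filter.atTop
      (nhds ((1 : ℝ) : ℂ)) := by
    simpa using h
  exact (Filter.tendsto_ofReal_iff.1 h2)

/-- the chord inequality -/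
theorem chord (n : ℕ) {x : ℝ} (hx : |x| ≤ 1 / 2) :
    J n (1 / 2) ≤ ((1 - 4 * x ^ 2) * (J n (1 / 2) / J n 0) + 4 * x ^ 2) * J n x := by
  have h1 : Filter.Tendsto (fun m : ℕ => al n m) Filter.atTop (nhds (J n (1 / 2) / J n 0)) := by
    have h2 : Filter.Tendsto (fun m : ℕ => J (n + 2 * m) (1 / 2) / J (n + 2 * m) 0)
        Filter.atTop (nhds 1) := by
      apply ratio_tendsto.comp
      apply Filter.tendsto_atTop_mono (fun m => (by omega : m ≤ n + 2 * m)) Filter.tendsto_id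
    have h3 : Filter.Tendsto (fun m : ℕ => (J n (1 / 2) / J n 0) /
        (J (n + 2 * m) (1 / 2) / J (n + 2 * m) 0)) Filter.atTop
        (nhds ((J n (1 / 2) / J n 0) / 1)) := tendsto_const_nhds.div h2 one_ne_zero
    rw [div_one] at h3
    refine h3.congr fun m => ?_
    rw [← al_eq m n]
    have h4 : J (n + 2 * m) (1 / 2) / J (n + 2 * m) 0 ≠ 0 := by
      apply div_ne_zero
      · exact (J_pos _ (by norm_num)).ne'
      · exact (J_zero_pos _).ne'
    exact mul_div_cancel_right₀ _ h4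
  have h5 : Filter.Tendsto (fun m : ℕ => ((1 - 4 * x ^ 2) * al n m + 4 * x ^ 2) * J n x)
      Filter.atTop (nhds (((1 - 4 * x ^ 2) * (J n (1 / 2) / J n 0) + 4 * x ^ 2) * J n x)) :=
    ((h1.const_mul _).add_const _).mul_const _
  exact ge_of_tendsto' h5 fun m => chord_fin hx m n

theorem J_even (k : ℕ) : J (2 * k) 0 = π / 2 * c k := by
  induction k with
  | zero => unfold J c; simp
  | succ k ih =>
    rw [show 2 * (k + 1) = 2 * k + 2 by ring, J_rec_zero, ih]
    unfold c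
    have h := Nat.succ_mul_centralBinom_succ k
    have h2 : ((k : ℝ) + 1) * (Nat.centralBinom (k + 1) : ℝ)
        = 2 * (2 * (k : ℝ) + 1) * (Nat.centralBinom k : ℝ) := by exact_mod_cast h
    have hk : (0 : ℝ) ≤ k := Nat.cast_nonneg k
    have h3 : (Nat.centralBinom (k + 1) : ℝ)
        = 2 * (2 * (k : ℝ) + 1) * (Nat.centralBinom k : ℝ) / ((k : ℝ) + 1) := by
      rw [eq_div_iff (by positivity)]
      linarith
    rw [h3]
    push_cast
    field_simp
    ring

theorem J_mul (n : ℕ) : J n 0 * J (n + 1) 0 = π / (2 * ((n : ℝ) + 1)) := by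
  induction n with
  | zero =>
    unfold J
    simp
  | succ n ih =>
    rw [J_rec_zero n]
    have hn : (0 : ℝ) ≤ n := Nat.cast_nonneg n
    have : J (n + 1) 0 * (((n : ℝ) + 1) / ((n : ℝ) + 2) * J n 0)
        = ((n : ℝ) + 1) / ((n : ℝ) + 2) * (J n 0 * J (n + 1) 0) := by ring
    rw [this, ih]
    push_cast
    field_simp
    ring

theorem c_pos (k : ℕ) : 0 < c k := by
  unfold c
  have := Nat.centralBinom_pos k
  positivity

theorem ratio_eq {k : ℕ} (hk : 1 ≤ k) :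
    J (2 * k - 1) (1 / 2) / J (2 * k - 1) 0 = 1 - d k := by
  obtain ⟨k, rfl⟩ : ∃ k', k = k' + 1 := ⟨k - 1, by omega⟩
  rw [show 2 * (k + 1) - 1 = 2 * k + 1 by omega, J_half]
  have h1 := J_mul (2 * k + 1)
  have h2 := J_even (k + 1)
  rw [show 2 * (k + 1) = 2 * k + 1 + 1 by ring] at h2
  have h3 := J_zero_pos (2 * k + 1)
  have h4 := c_pos (k + 1)
  rw [h2] at h1 ⊢
  rw [div_eq_iff h3.ne']
  unfold d
  have hk : (0 : ℝ) ≤ k := Nat.cast_nonneg k
  have h5 : J (2 * k + 1) 0 * (π / 2 * c (k + 1)) * (2 * (((2 * k + 1 : ℕ) : ℝ) + 1)) = π := by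
    rw [h1]
    field_simp
  push_cast at h5 ⊢
  have hpi := pi_pos
  have h6 : J (2 * k + 1) 0 * c (k + 1) * (2 * ((k : ℝ) + 1)) = 1 := by
    have : π * (J (2 * k + 1) 0 * c (k + 1) * (2 * ((k : ℝ) + 1))) = π * 1 := by
      linear_combination h5
    exact mul_left_cancel₀ hpi.ne' this
  have h7 : (1 - (1 - π * ((k : ℝ) + 1) * c (k + 1) ^ 2)) * J (2 * k + 1) 0
      = π / 2 * c (k + 1) * (J (2 * k + 1) 0 * c (k + 1) * (2 * ((k : ℝ) + 1))) := by ring
  rw [h7, h6, mul_one]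

/-- the kernel inequality in the form used later -/
theorem kernel {k : ℕ} (hk : 1 ≤ k) {x : ℝ} (hx : |x| ≤ 1 / 2) :
    π / 2 * c k ≤ (1 - d k + 4 * d k * x ^ 2) * J (2 * k - 1) x := by
  have h := chord (2 * k - 1) hx
  rw [ratio_eq hk, J_half, show 2 * k - 1 + 1 = 2 * k by omega, J_even] at h
  have e : (1 - 4 * x ^ 2) * (1 - d k) + 4 * x ^ 2 = 1 - d k + 4 * d k * x ^ 2 := by ring
  rwa [e] at h

theorem d_mem {k : ℕ} (hk : 1 ≤ k) : 0 ≤ d k ∧ d k < 1 := by
  have h := ratio_eq hk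
  have h1 := J_half_le (2 * k - 1) (x := 0) (by norm_num)
  have h2 := J_zero_pos (2 * k - 1)
  have h3 : 0 < J (2 * k - 1) (1 / 2) := J_pos _ (by norm_num)
  constructor
  · have : J (2 * k - 1) (1 / 2) / J (2 * k - 1) 0 ≤ 1 := by
      rw [div_le_one h2]; exact h1
    linarith
  · have : 0 < J (2 * k - 1) (1 / 2) / J (2 * k - 1) 0 := div_pos h3 h2
    linarith

end Pool.Agent.BRS
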