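import Pool.Agent.BRS.Four
import Pool.Agent.BRS.Kernel

set_option autoImplicit false

/-! The dual inequality. -/

namespace Pool.Agent.BRS

open Real intervalIntegral Finset MeasureTheory

theorem am_gm (n : ℕ) {a b : ℝ} (ha : 0 ≤ a) (hb : 0 ≤ b) :
    ((n : ℝ) + 1) * (a ^ n * b) ≤ n * a ^ (n + 1) + b ^ (n + 1) := by
  rcases ha.eq_or_lt with rfl | ha'
  · rcases n with _ | n
    · simp
    · have : (0 : ℝ) ≤ b ^ (n + 1 + 1) := pow_nonneg hb _
      simpa using this
  · have h := one_add_mul_le_pow (a := b / a - 1) (by have := div_nonneg hb ha; linarith) (n + 1)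
    have e : 1 + (b / a - 1) = b / a := by ring
    rw [e, div_pow] at h
    have h2 := mul_le_mul_of_nonneg_right h (pow_nonneg ha (n + 1))
    rw [div_mul_cancel₀ _ (pow_ne_zero _ ha'.ne')] at h2
    have e2 : (1 + ((n + 1 : ℕ) : ℝ) * (b / a - 1)) * a ^ (n + 1)
        = ((n : ℝ) + 1) * (a ^ n * b) - n * a ^ (n + 1) := by
      push_cast
      rw [pow_succ]
      field_simp
      ring
    rw [e2] at h2
    linarith

/-- Hoelder in the form used here -/
theorem holder {ι : Type*} (s : Finset ι) (n : ℕ) (w : ι → ℝ) (hw : ∀ i ∈ s, 0 ≤ w i)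
    (g : ℝ → ℝ) (hg : Continuous g) (B : ι → ℝ → ℝ) (hB : ∀ i, Continuous (B i)) {a b : ℝ}
    (hab : a ≤ b) (hg0 : ∀ x ∈ Set.Icc a b, 0 ≤ g x) (hB0 : ∀ i x, 0 ≤ B i x)
    (hS : 0 < ∑ i ∈ s, w i ^ (n + 1) * ∫ x in a..b, g x ^ (n + 1)) :
    (∑ i ∈ s, w i ^ n * ∫ x in a..b, g x ^ n * B i x) ^ (n + 1)
      ≤ (∑ i ∈ s, w i ^ (n + 1) * ∫ x in a..b, g x ^ (n + 1)) ^ n
        * ∑ i ∈ s, ∫ x in a..b, B i x ^ (n + 1) := by
  set T := ∑ i ∈ s, w i ^ n * ∫ x in a..b, g x ^ n * B i x with hT
  set S := ∑ i ∈ s, w i ^ (n + 1) * ∫ x in a..b, g x ^ (n + 1) with hSdef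
  set Y := ∑ i ∈ s, ∫ x in a..b, B i x ^ (n + 1) with hY
  have key : ∀ μ : ℝ, 0 ≤ μ → ((n : ℝ) + 1) * (μ ^ n * T) ≤ n * (μ ^ (n + 1) * S) + Y := by
    intro μ hμ
    have h1 : ∀ i ∈ s, ((n : ℝ) + 1) * (μ ^ n * (w i ^ n * ∫ x in a..b, g x ^ n * B i x))
        ≤ n * (μ ^ (n + 1) * (w i ^ (n + 1) * ∫ x in a..b, g x ^ (n + 1)))
          + ∫ x in a..b, B i x ^ (n + 1) := by
      intro i hi
      have e1 : ((n : ℝ) + 1) * (μ ^ n * (w i ^ n * ∫ x in a..b, g x ^ n * B i x))
          = ∫ x in a..b, ((n : ℝ) + 1) * ((μ * w i * g x) ^ n * B i x) := by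
        rw [← intervalIntegral.integral_const_mul, ← intervalIntegral.integral_const_mul,
          ← intervalIntegral.integral_const_mul]
        refine intervalIntegral.integral_congr fun x _ => ?_
        simp only [mul_pow]
        ring
      have e2 : n * (μ ^ (n + 1) * (w i ^ (n + 1) * ∫ x in a..b, g x ^ (n + 1)))
          + ∫ x in a..b, B i x ^ (n + 1)
          = ∫ x in a..b, ((n : ℝ) * (μ * w i * g x) ^ (n + 1) + B i x ^ (n + 1)) := by
        rw [intervalIntegral.integral_add]
        · rw [← intervalIntegral.integral_const_mul, ← intervalIntegral.integral_const_mul,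
            ← intervalIntegral.integral_const_mul]
          congr 1
          refine intervalIntegral.integral_congr fun x _ => ?_
          simp only [mul_pow]
          ring
        · exact Continuous.intervalIntegrable (by fun_prop) _ _
        · exact ((hB i).pow _).intervalIntegrable _ _
      rw [e1, e2]
      have hBi := hB i
      apply intervalIntegral.integral_mono_on hab
      · exact Continuous.intervalIntegrable (by fun_prop) _ _
      · exact Continuous.intervalIntegrable (by fun_prop) _ _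
      · intro x hx
        exact am_gm n (mul_nonneg (mul_nonneg hμ (hw i hi)) (hg0 x hx)) (hB0 i x)
    have h2 := Finset.sum_le_sum h1
    rw [Finset.sum_add_distrib, ← Finset.mul_sum, ← Finset.mul_sum, ← Finset.mul_sum,
      ← Finset.mul_sum] at h2
    exact h2
  have hT0 : 0 ≤ T := by
    rw [hT]
    refine Finset.sum_nonneg fun i hi => mul_nonneg (pow_nonneg (hw i hi) _) ?_
    apply intervalIntegral.integral_nonneg hab
    intro x hx
    exact mul_nonneg (pow_nonneg (hg0 x hx) _) (hB0 i x)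
  have h := key (T / S) (div_nonneg hT0 hS.le)
  have e1 : (T / S) ^ n * T = T ^ (n + 1) / S ^ n := by
    rw [div_pow, pow_succ]; ring
  have e2 : (T / S) ^ (n + 1) * S = T ^ (n + 1) / S ^ n := by
    rw [div_pow, pow_succ S]
    field_simp
  rw [e1, e2] at h
  have h3 : T ^ (n + 1) / S ^ n ≤ Y := by linarith
  rw [div_le_iff₀ (pow_pos hS n)] at h3
  linarith

/-- integrals over unit intervals and a period -/
theorem period_le (h : ℝ → ℝ) (hc : Continuous h) (hp : ∀ t, h (t + 1) = h t)
    (h0 : ∀ t, 0 ≤ h t) (L M : ℕ) (hM : 2 * L + 1 ≤ M) :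
    ∑ i ∈ range (2 * L + 1), ∫ x in (-(1 / 2) : ℝ)..1 / 2, h (((i : ℝ) - L + x) / M)
      ≤ M * ∫ t in (0 : ℝ)..1, h t := by
  have hM0 : (0 : ℝ) < M := by
    have : 0 < M := by omega
    exact_mod_cast this
  have e1 : ∀ i : ℕ, ∫ x in (-(1 / 2) : ℝ)..1 / 2, h (((i : ℝ) - L + x) / M)
      = ∫ x in (fun j : ℕ => (j : ℝ) - L - 1 / 2) i..(fun j : ℕ => (j : ℝ) - L - 1 / 2) (i + 1),
        h (x / M) := by
    intro i
    rw [intervalIntegral.integral_comp_add_left (fun x => h (x / M)) ((i : ℝ) - L)]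
    congr 1
    push_cast
    ring
  simp only [e1]
  rw [intervalIntegral.sum_integral_adjacent_intervals]
  · have e2 : ∫ x in (fun j : ℕ => (j : ℝ) - L - 1 / 2) 0..(fun j : ℕ => (j : ℝ) - L - 1 / 2)
        (2 * L + 1), h (x / M)
        ≤ ∫ x in (-(L : ℝ) - 1 / 2)..(-(L : ℝ) - 1 / 2 + M), h (x / M) := by
      apply intervalIntegral.integral_mono_interval
      · simp
      · push_cast; have : (0 : ℝ) ≤ L := Nat.cast_nonneg L; linarith
      · have : ((2 * L + 1 : ℕ) : ℝ) ≤ M := by exact_mod_cast hM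
        push_cast at this ⊢
        linarith
      · exact Filter.Eventually.of_forall fun x => h0 _
      · exact (hc.comp (continuous_id.div_const _)).intervalIntegrable _ _
    refine e2.trans (le_of_eq ?_)
    rw [intervalIntegral.integral_comp_div h hM0.ne', smul_eq_mul]
    congr 1
    have e3 : (-(L : ℝ) - 1 / 2 + M) / M = (-(L : ℝ) - 1 / 2) / M + 1 := by
      field_simp
    rw [e3]
    have hper : Function.Periodic h 1 := hp
    rw [hper.intervalIntegral_add_eq ((-(L : ℝ) - 1 / 2) / M) 0, zero_add]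
  · intro i _
    exact (hc.comp (continuous_id.div_const _)).intervalIntegrable _ _

theorem kernel_integral (n : ℕ) (y j : ℝ) :
    ∫ x in (-(1 / 2) : ℝ)..1 / 2, cos (π * x) ^ n * cos (2 * π * y * (j + x))
      = cos (2 * π * y * j) * (2 / π * J n y) := by
  have hpi := pi_pos
  have e1 : ∀ x : ℝ, cos (π * x) ^ n * cos (2 * π * y * (j + x))
      = cos (2 * π * y * j) * (cos (π * x) ^ n * cos (2 * π * y * x))
        - sin (2 * π * y * j) * (cos (π * x) ^ n * sin (2 * π * y * x)) := by
    intro x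
    rw [mul_add, cos_add]
    ring
  simp only [e1]
  rw [intervalIntegral.integral_sub, intervalIntegral.integral_const_mul,
    intervalIntegral.integral_const_mul]
  · have h1 : ∫ x in (-(1 / 2) : ℝ)..1 / 2, cos (π * x) ^ n * sin (2 * π * y * x) = 0 := by
      have h2 := intervalIntegral.integral_comp_neg (a := -(1 / 2 : ℝ)) (b := 1 / 2)
        (fun x => cos (π * x) ^ n * sin (2 * π * y * x))
      have e2 : ∀ x : ℝ, cos (π * -x) ^ n * sin (2 * π * y * -x)
          = -(cos (π * x) ^ n * sin (2 * π * y * x)) := by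
        intro x
        rw [mul_neg, cos_neg, mul_neg, sin_neg]
        ring
      simp only [e2, neg_neg] at h2
      rw [intervalIntegral.integral_neg] at h2
      linarith
    have h3 : ∫ x in (-(1 / 2) : ℝ)..1 / 2, cos (π * x) ^ n * cos (2 * π * y * x)
        = 2 / π * J n y := by
      have h4 : ∫ x in (-(1 / 2) : ℝ)..0, cos (π * x) ^ n * cos (2 * π * y * x)
          = ∫ x in (0 : ℝ)..1 / 2, cos (π * x) ^ n * cos (2 * π * y * x) := by
        have h5 := intervalIntegral.integral_comp_neg (a := (0 : ℝ)) (b := 1 / 2)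
          (fun x => cos (π * x) ^ n * cos (2 * π * y * x))
        rw [neg_zero] at h5
        rw [← h5]
        refine intervalIntegral.integral_congr fun x _ => ?_
        simp only [mul_neg, cos_neg]
      have h6 : ∫ x in (0 : ℝ)..1 / 2, cos (π * x) ^ n * cos (2 * π * y * x) = 1 / π * J n y := by
        unfold J
        have h7 := intervalIntegral.integral_comp_mul_left (a := (0 : ℝ)) (b := 1 / 2)
          (fun t => cos (2 * y * t) * cos t ^ n) hpi.ne'
        rw [mul_zero, smul_eq_mul, show π * (1 / 2) = π / 2 by ring] at h7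
        rw [one_div π, ← h7]
        refine intervalIntegral.integral_congr fun x _ => ?_
        rw [show 2 * π * y * x = 2 * y * (π * x) by ring]
        ring
      rw [← intervalIntegral.integral_add_adjacent_intervals (b := (0 : ℝ))
        (Continuous.intervalIntegrable (by fun_prop) _ _)
        (Continuous.intervalIntegrable (by fun_prop) _ _), h4, h6]
      ring
    rw [h1, h3]
    ring
  · exact Continuous.intervalIntegrable (by fun_prop) _ _
  · exact Continuous.intervalIntegrable (by fun_prop) _ _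

theorem J_le (n : ℕ) {x : ℝ} : J n x ≤ π / 2 := by
  unfold J
  have h : ∫ t in (0 : ℝ)..π / 2, cos (2 * x * t) * cos t ^ n ≤ ∫ _t in (0 : ℝ)..π / 2, (1 : ℝ) := by
    apply intervalIntegral.integral_mono_on (by positivity)
    · exact Continuous.intervalIntegrable (by fun_prop) _ _
    · exact Continuous.intervalIntegrable (by fun_prop) _ _
    · intro t ht
      have hc : 0 ≤ cos t := cos_nonneg_of_mem_Icc ⟨by linarith [ht.1, pi_pos], ht.2⟩
      have h1 : cos t ^ n ≤ 1 := pow_le_one₀ hc (cos_le_one t)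
      have h2 : 0 ≤ cos t ^ n := pow_nonneg hc n
      have h3 := cos_le_one (2 * x * t)
      nlinarith
  refine h.trans ?_
  simp

end Pool.Agent.BRS
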