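import Pool.Agent.BRS.Dual

set_option autoImplicit false

/-! The lower bound for the energy. -/

namespace Pool.Agent.BRS

open Real intervalIntegral Finset MeasureTheory

/-- Fourier coefficients of `1 - d + 4 d y^2` -/
noncomputable def pw (k : ℕ) : ℕ → ℝ
  | 0 => 1 - 2 / 3 * d k
  | j + 1 => (-1) ^ (j + 1) * (2 * d k / (π ^ 2 * ((j : ℝ) + 1) ^ 2))

/-- the same on the integers -/
noncomputable def pz (k : ℕ) (j : ℤ) : ℝ := pw k j.natAbs

theorem sym_sum (g : ℤ → ℝ) (hg : ∀ j, g (-j) = g j) (L : ℕ) :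
    ∑ i ∈ range (2 * L + 1), g ((i : ℤ) - L) = g 0 + 2 * ∑ j ∈ range L, g ((j : ℤ) + 1) := by
  induction L with
  | zero => simp
  | succ L ih =>
    rw [show 2 * (L + 1) + 1 = (2 * L + 1 + 1) + 1 by ring, Finset.sum_range_succ,
      Finset.sum_range_succ' _ (2 * L + 1)]
    have e1 : ∀ i : ℕ, (((i + 1 : ℕ) : ℤ) - ((L + 1 : ℕ) : ℤ)) = (i : ℤ) - L := by
      intro i; push_cast; ring
    simp only [e1]
    rw [ih, Finset.sum_range_succ]
    have e2 : (((0 : ℕ) : ℤ) - ((L + 1 : ℕ) : ℤ)) = -((L : ℤ) + 1) := by push_cast; ring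
    have e3 : (((2 * L + 1 : ℕ) : ℤ) - (L : ℤ)) = (L : ℤ) + 1 := by push_cast; ring
    rw [e2, e3, hg]
    ring

theorem pw_hasSum (k : ℕ) {y : ℝ} (hy : |y| ≤ 1 / 2) :
    HasSum (fun j : ℕ => 2 * (pw k (j + 1) * cos (2 * π * y * ((j : ℝ) + 1))))
      (1 - d k + 4 * d k * y ^ 2 - (1 - 2 / 3 * d k)) := by
  have hy' := abs_le.1 hy
  have h := hasSum_one_div_nat_pow_mul_cos (k := 1) one_ne_zero (x := y + 1 / 2)
    ⟨by linarith, by linarith⟩
  rw [← hasSum_nat_add_iff' 1] at h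
  have h2 := h.mul_left (4 * d k / π ^ 2)
  have hpi := pi_ne_zero
  have hfun : (fun j : ℕ => 2 * (pw k (j + 1) * cos (2 * π * y * ((j : ℝ) + 1))))
      = fun i : ℕ => 4 * d k / π ^ 2 * (1 / ((i + 1 : ℕ) : ℝ) ^ (2 * 1)
        * cos (2 * π * ((i + 1 : ℕ) : ℝ) * (y + 1 / 2))) := by
    funext j
    have e1 : 2 * π * ((j + 1 : ℕ) : ℝ) * (y + 1 / 2)
        = 2 * π * y * ((j : ℝ) + 1) + ((j + 1 : ℕ) : ℝ) * π := by
      push_cast; ring
    rw [e1, cos_add_nat_mul_pi]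
    show 2 * ((-1) ^ (j + 1) * (2 * d k / (π ^ 2 * ((j : ℝ) + 1) ^ 2))
      * cos (2 * π * y * ((j : ℝ) + 1))) = _
    have hj : ((j : ℝ) + 1) ≠ 0 := by positivity
    push_cast
    field_simp
    ring
  have e2 : (Polynomial.map (algebraMap ℚ ℝ) (Polynomial.bernoulli (2 * 1))).eval (y + 1 / 2)
      = y ^ 2 - 1 / 12 := by
    rw [show 2 * 1 = 2 from rfl, Polynomial.bernoulli]
    simp [Finset.sum_range_succ, bernoulli_two, bernoulli_one, Polynomial.eval_monomial]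
    norm_num [Nat.choose]
    ring
  rw [e2] at h2
  have hval : 1 - d k + 4 * d k * y ^ 2 - (1 - 2 / 3 * d k)
      = 4 * d k / π ^ 2 * ((-1) ^ (1 + 1) * (2 * π) ^ (2 * 1) / 2 / ((2 * 1).factorial : ℝ)
        * (y ^ 2 - 1 / 12) - ∑ i ∈ range 1, 1 / (i : ℝ) ^ (2 * 1)
          * cos (2 * π * (i : ℝ) * (y + 1 / 2))) := by
    simp
    field_simp
    ring
  rw [hfun, hval]
  exact h2

theorem pw_abs (k : ℕ) (hk : 1 ≤ k) (j : ℕ) :
    |pw k (j + 1)| = 2 * d k / π ^ 2 * (((j : ℝ) + 1) ^ 2)⁻¹ := by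
  have h := (d_mem hk).1
  show |(-1) ^ (j + 1) * (2 * d k / (π ^ 2 * ((j : ℝ) + 1) ^ 2))| = _
  rw [abs_mul, abs_pow, abs_neg, abs_one, one_pow, one_mul, abs_of_nonneg (by positivity)]
  field_simp

theorem pw_summable (k : ℕ) (hk : 1 ≤ k) : Summable fun j : ℕ => 2 * |pw k (j + 1)| := by
  simp only [pw_abs k hk]
  apply Summable.mul_left
  apply Summable.mul_left
  have h : Summable fun n : ℕ => ((n : ℝ) ^ 2)⁻¹ := by
    simp
  have h2 := (summable_nat_add_iff 1).2 h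
  refine h2.congr fun j => ?_
  push_cast
  rfl

/-- uniform approximation from below -/
theorem approx (k : ℕ) (hk : 1 ≤ k) {ε : ℝ} (hε : 0 < ε) :
    ∃ L : ℕ, ∀ y : ℝ, |y| ≤ 1 / 2 → 1 - d k + 4 * d k * y ^ 2 - ε
      ≤ ∑ i ∈ range (2 * L + 1), pz k ((i : ℤ) - L) * cos (2 * π * y * ((i : ℝ) - L)) := by
  have ht := tendsto_sum_nat_add fun j : ℕ => 2 * |pw k (j + 1)|
  have hev := (ht.eventually (gt_mem_nhds hε))
  obtain ⟨L, hL⟩ := hev.exists
  refine ⟨L, fun y hy => ?_⟩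
  have hs := pw_hasSum k hy
  have hsum := hs.summable
  have h1 := hsum.sum_add_tsum_nat_add L
  rw [hs.tsum_eq] at h1
  have hg := pw_summable k hk
  have hg2 := (summable_nat_add_iff L).2 hg
  have h2 : ∑' j : ℕ, 2 * (pw k (j + L + 1) * cos (2 * π * y * (((j + L : ℕ) : ℝ) + 1)))
      ≤ ∑' j : ℕ, 2 * |pw k (j + L + 1)| := by
    apply Summable.tsum_le_tsum _ ((summable_nat_add_iff L).2 hsum) hg2
    intro j
    apply mul_le_mul_of_nonneg_left _ (by norm_num)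
    refine (le_abs_self _).trans ?_
    rw [abs_mul]
    exact mul_le_of_le_one_right (abs_nonneg _) (abs_cos_le_one _)
  have h3 : ∑ i ∈ range (2 * L + 1), pz k ((i : ℤ) - L) * cos (2 * π * y * ((i : ℝ) - L))
      = (1 - 2 / 3 * d k)
        + ∑ j ∈ range L, 2 * (pw k (j + 1) * cos (2 * π * y * ((j : ℝ) + 1))) := by
    have h4 := sym_sum (fun j : ℤ => pz k j * cos (2 * π * y * (j : ℝ))) (fun j => by
      simp only [pz, Int.natAbs_neg]
      congr 1
      rw [← cos_neg]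
      congr 1
      push_cast
      ring) L
    have e1 : ∀ i : ℕ, (((i : ℤ) - (L : ℤ) : ℤ) : ℝ) = (i : ℝ) - L := by
      intro i; push_cast; ring
    simp only [e1] at h4
    rw [h4, ← Finset.mul_sum]
    congr 1
    · simp only [pz, Int.cast_zero, mul_zero, cos_zero, mul_one]
      rfl
    · congr 1
      refine Finset.sum_congr rfl fun j _ => ?_
      have e2 : ((j : ℤ) + 1).natAbs = j + 1 := by omega
      simp only [pz, e2]
      push_cast
      rfl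
  rw [h3]
  linarith

/-- the exponential sum dominates the shifted cosine sum -/
theorem cos_le_D (A : Finset ℕ) (u : ℕ) (M x₀ ξ : ℝ) :
    |∑ p ∈ A ×ˢ range u, cos (2 * π * ((((p.1 : ℝ) + p.2) - x₀) / M) * ξ)| ≤ ‖D A u (ξ / M)‖ := by
  have h1 : ∑ p ∈ A ×ˢ range u, cos (2 * π * ((((p.1 : ℝ) + p.2) - x₀) / M) * ξ)
      = (Complex.exp (-(2 * π * x₀ * ξ / M : ℝ) * Complex.I) * D A u (ξ / M)).re := by
    have h2 : D A u (ξ / M) = ∑ p ∈ A ×ˢ range u, E (p.1 + p.2) (ξ / M) := by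
      unfold D T
      rw [Finset.sum_mul_sum, Finset.sum_product]
      simp only [E_add]
    rw [h2, Finset.mul_sum, Complex.re_sum]
    refine Finset.sum_congr rfl fun p _ => ?_
    unfold E
    rw [← Complex.exp_add]
    have e : (-((2 * π * x₀ * ξ / M : ℝ) : ℂ) * Complex.I
        + 2 * π * Complex.I * ((p.1 + p.2 : ℕ) : ℂ) * ((ξ / M : ℝ) : ℂ))
        = ((2 * π * ((((p.1 : ℝ) + p.2) - x₀) / M) * ξ : ℝ) : ℂ) * Complex.I := by
      push_cast
      ring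
    rw [e, Complex.exp_ofReal_mul_I_re]
  rw [h1]
  refine (Complex.abs_re_le_norm _).trans ?_
  rw [norm_mul]
  have e : ‖Complex.exp (-((2 * π * x₀ * ξ / M : ℝ) : ℂ) * Complex.I)‖ = 1 := by
    have : (-((2 * π * x₀ * ξ / M : ℝ) : ℂ) * Complex.I)
        = ((-(2 * π * x₀ * ξ / M) : ℝ) : ℂ) * Complex.I := by push_cast; ring
    rw [this, Complex.norm_exp_ofReal_mul_I]
  rw [e, one_mul]

end Pool.Agent.BRS
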