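import Pool.Agent.BRS.Dual2

set_option autoImplicit false

/-! The lower bound for the energy. -/

namespace Pool.Agent.BRS

open Real intervalIntegral Finset MeasureTheory

/-- the finite dual sum -/
noncomputable def SL (k L : ℕ) : ℝ :=
  ∑ i ∈ range (2 * L + 1), |pz k ((i : ℤ) - L)| ^ q k

theorem q_gt {k : ℕ} (hk : 1 ≤ k) : 1 < q k := by
  have hk' : (1 : ℝ) ≤ k := by exact_mod_cast hk
  unfold q
  rw [lt_div_iff₀ (by linarith)]
  linarith

theorem SL_eq (k L : ℕ) (hk : 1 ≤ k) :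
    SL k L = (1 - 2 / 3 * d k) ^ q k
      + 2 * (2 * d k / π ^ 2) ^ q k * ∑ j ∈ range L, (((j : ℝ) + 1) ^ (2 * q k))⁻¹ := by
  have hd := d_mem hk
  have h4 := sym_sum (fun j : ℤ => |pz k j| ^ q k) (fun j => by simp only [pz, Int.natAbs_neg]) L
  unfold SL
  rw [h4]
  have e0 : |pz k 0| = 1 - 2 / 3 * d k := by
    show |1 - 2 / 3 * d k| = _
    exact abs_of_nonneg (by linarith [hd.1, hd.2])
  rw [e0, mul_assoc 2, Finset.mul_sum _ _ ((2 * d k / π ^ 2) ^ q k)]
  congr 2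
  refine Finset.sum_congr rfl fun j _ => ?_
  have e2 : ((j : ℤ) + 1).natAbs = j + 1 := by omega
  simp only [pz, e2]
  have e3 : (((j : ℝ) + 1) ^ 2) ^ q k = ((j : ℝ) + 1) ^ (2 * q k) := by
    have hj : (0 : ℝ) ≤ (j : ℝ) + 1 := by positivity
    rw [rpow_mul hj]
    norm_num
  rw [pw_abs k hk, mul_rpow (by have := hd.1; positivity) (by positivity),
    inv_rpow (by positivity), e3]

theorem S_summable {k : ℕ} (hk : 1 ≤ k) :
    Summable fun j : ℕ => (((j : ℝ) + 1) ^ (2 * q k))⁻¹ := by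
  have h : Summable fun n : ℕ => ((n : ℝ) ^ (2 * q k))⁻¹ :=
    Real.summable_nat_rpow_inv.2 (by linarith [q_gt hk])
  have h2 := (summable_nat_add_iff 1).2 h
  refine h2.congr fun j => ?_
  push_cast
  rfl

theorem SL_le (k L : ℕ) (hk : 1 ≤ k) : SL k L ≤ S k := by
  have hd := d_mem hk
  rw [SL_eq k L hk]
  unfold S
  have h : ∑ j ∈ range L, (((j : ℝ) + 1) ^ (2 * q k))⁻¹
      ≤ ∑' j : ℕ, (((j : ℝ) + 1) ^ (2 * q k))⁻¹ :=
    (S_summable hk).sum_le_tsum _ fun j _ => by positivity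
  have h2 : 0 ≤ 2 * (2 * d k / π ^ 2) ^ q k :=
    mul_nonneg zero_le_two (rpow_nonneg (by have := hd.1; positivity) _)
  nlinarith [mul_le_mul_of_nonneg_left h h2]

theorem SL_pos (k L : ℕ) (hk : 1 ≤ k) : 0 < SL k L := by
  have hd := d_mem hk
  rw [SL_eq k L hk]
  have h1 : 0 < (1 - 2 / 3 * d k) ^ q k := rpow_pos_of_pos (by linarith [hd.1, hd.2]) _
  have h2 : 0 ≤ 2 * (2 * d k / π ^ 2) ^ q k :=
    mul_nonneg zero_le_two (rpow_nonneg (by have := hd.1; positivity) _)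
  have h3 : 0 ≤ ∑ j ∈ range L, (((j : ℝ) + 1) ^ (2 * q k))⁻¹ :=
    Finset.sum_nonneg fun j _ => by positivity
  nlinarith [mul_nonneg h2 h3]

/-- the lower bound for the energy -/
theorem dual_ineq {k : ℕ} (hk : 1 ≤ k) {A : Finset ℕ} {u N : ℕ} (hA : A ⊆ Finset.Icc 1 N)
    {L : ℕ} {δ : ℝ} (hδ0 : 0 ≤ δ) (hδc : δ ≤ c k)
    (hδ : ∀ y : ℝ, |y| ≤ 1 / 2 → 1 - d k + 4 * d k * y ^ 2 - δ
      ≤ ∑ i ∈ range (2 * L + 1), pz k ((i : ℤ) - L) * cos (2 * π * y * ((i : ℝ) - L)))
    (hM : 2 * L + 1 ≤ N + u) :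
    (((A.card : ℝ) * u) * (c k - δ)) ^ (2 * k)
      ≤ (SL k L * c k) ^ (2 * k - 1) * (((N + u : ℕ) : ℝ) * ∫ t in (0 : ℝ)..1, ‖D A u t‖ ^ (2 * k)) := by
  obtain ⟨n, hn⟩ : ∃ n : ℕ, 2 * k = n + 1 := ⟨2 * k - 1, by omega⟩
  have hn1 : 2 * k - 1 = n := by omega
  have hn0 : (n : ℝ) = 2 * k - 1 := by
    have : ((2 * k : ℕ) : ℝ) = ((n + 1 : ℕ) : ℝ) := by rw [hn]
    push_cast at this
    linarith
  have hnpos : 0 < (n : ℝ) := by
    have : (1 : ℝ) ≤ k := by exact_mod_cast hk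
    rw [hn0]; linarith
  rw [hn1, hn]
  have hpi := pi_pos
  have hc := c_pos k
  set M : ℝ := ((N + u : ℕ) : ℝ) with hMdef
  have hMpos : 0 < M := by
    have : 0 < N + u := by omega
    rw [hMdef]; exact_mod_cast this
  set x₀ : ℝ := M / 2 with hx₀
  -- positions
  have hpos : ∀ p ∈ A ×ˢ range u, |(((p.1 : ℝ) + p.2) - x₀) / M| ≤ 1 / 2 := by
    intro p hp
    rw [Finset.mem_product, Finset.mem_range] at hp
    have h1 := Finset.mem_Icc.1 (hA hp.1)
    have h2 : (1 : ℝ) ≤ p.1 := by exact_mod_cast h1.1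
    have h3 : (p.1 : ℝ) ≤ N := by exact_mod_cast h1.2
    have h4 : (p.2 : ℝ) < u := by exact_mod_cast hp.2
    have h5 : (0 : ℝ) ≤ p.2 := Nat.cast_nonneg _
    have h6 : M = N + u := by rw [hMdef]; push_cast; ring
    rw [abs_div, abs_of_pos hMpos, div_le_iff₀ hMpos, abs_le]
    constructor <;> rw [hx₀] <;> linarith
  -- the functions B_i
  set B : ℕ → ℝ → ℝ := fun i x => ‖D A u (((i : ℝ) - L + x) / M)‖ with hB
  have hBc : ∀ i, Continuous (B i) := by
    intro i
    rw [hB]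
    exact ((D_cont A u).comp (by fun_prop)).norm
  -- step A
  have hA1 : (A.card : ℝ) * u * (c k - δ)
      ≤ ∑ i ∈ range (2 * L + 1), |pz k ((i : ℤ) - L)|
        * ∫ x in (-(1 / 2) : ℝ)..1 / 2, cos (π * x) ^ n * B i x := by
    have h1 : ∀ p ∈ A ×ˢ range u, c k - δ
        ≤ ∑ i ∈ range (2 * L + 1), pz k ((i : ℤ) - L)
          * ∫ x in (-(1 / 2) : ℝ)..1 / 2, cos (π * x) ^ n
            * cos (2 * π * ((((p.1 : ℝ) + p.2) - x₀) / M) * ((i : ℝ) - L + x)) := by
      intro p hp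
      have hy := hpos p hp
      set y : ℝ := (((p.1 : ℝ) + p.2) - x₀) / M
      have h2 := hδ y hy
      have h3 := kernel hk hy
      rw [hn1] at h3
      have h4 := J_le n (x := y)
      have h5 := J_pos n hy
      simp only [kernel_integral]
      have e1 : ∑ i ∈ range (2 * L + 1), pz k ((i : ℤ) - L)
          * (cos (2 * π * y * ((i : ℝ) - L)) * (2 / π * J n y))
          = (∑ i ∈ range (2 * L + 1), pz k ((i : ℤ) - L)
            * cos (2 * π * y * ((i : ℝ) - L))) * (2 / π * J n y) := by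
        rw [Finset.sum_mul]
        refine Finset.sum_congr rfl fun i _ => ?_
        ring
      rw [e1]
      have h6 : 0 ≤ 2 / π * J n y := by positivity
      have h7 : 2 / π * J n y ≤ 1 := by
        rw [div_mul_eq_mul_div, div_le_one hpi]
        linarith
      have h8 : c k ≤ (1 - d k + 4 * d k * y ^ 2) * (2 / π * J n y) := by
        have : c k = 2 / π * (π / 2 * c k) := by field_simp
        rw [this]
        calc 2 / π * (π / 2 * c k) ≤ 2 / π * ((1 - d k + 4 * d k * y ^ 2) * J n y) :=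
              mul_le_mul_of_nonneg_left h3 (by positivity)
          _ = _ := by ring
      calc c k - δ ≤ (1 - d k + 4 * d k * y ^ 2) * (2 / π * J n y) - δ * (2 / π * J n y) := by
            nlinarith
        _ = (1 - d k + 4 * d k * y ^ 2 - δ) * (2 / π * J n y) := by ring
        _ ≤ _ := mul_le_mul_of_nonneg_right h2 h6
    have h2 := Finset.sum_le_sum h1
    rw [Finset.sum_const, Finset.card_product, Finset.card_range, nsmul_eq_mul, Nat.cast_mul,
      Finset.sum_comm] at h2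
    refine h2.trans ?_
    refine Finset.sum_le_sum fun i _ => ?_
    rw [← Finset.mul_sum]
    have h3 : ∑ p ∈ A ×ˢ range u, ∫ x in (-(1 / 2) : ℝ)..1 / 2, cos (π * x) ^ n
        * cos (2 * π * ((((p.1 : ℝ) + p.2) - x₀) / M) * ((i : ℝ) - L + x))
        = ∫ x in (-(1 / 2) : ℝ)..1 / 2, cos (π * x) ^ n * ∑ p ∈ A ×ˢ range u,
          cos (2 * π * ((((p.1 : ℝ) + p.2) - x₀) / M) * ((i : ℝ) - L + x)) := by
      rw [← intervalIntegral.integral_finsetSum]
      · refine intervalIntegral.integral_congr fun x _ => ?_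
        simp only [Finset.mul_sum]
      · intro p _
        exact Continuous.intervalIntegrable (by fun_prop) _ _
    rw [h3]
    refine (le_abs_self _).trans ?_
    rw [abs_mul]
    refine mul_le_mul_of_nonneg_left ?_ (abs_nonneg _)
    refine (intervalIntegral.abs_integral_le_integral_abs (by norm_num)).trans ?_
    have hBi := hBc i
    apply intervalIntegral.integral_mono_on (by norm_num)
    · exact Continuous.intervalIntegrable (by fun_prop) _ _
    · exact Continuous.intervalIntegrable (by fun_prop) _ _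
    · intro x hx
      have hcos : 0 ≤ cos (π * x) := by
        apply cos_nonneg_of_mem_Icc
        constructor <;> nlinarith [hx.1, hx.2]
      rw [abs_mul, abs_of_nonneg (pow_nonneg hcos n)]
      refine mul_le_mul_of_nonneg_left ?_ (pow_nonneg hcos n)
      exact cos_le_D A u M x₀ ((i : ℝ) - L + x)
  -- step B
  have hw : ∀ i, (|pz k ((i : ℤ) - L)| ^ (1 / (n : ℝ))) ^ n = |pz k ((i : ℤ) - L)| := by
    intro i
    rw [← rpow_natCast, ← rpow_mul (abs_nonneg _), one_div, inv_mul_cancel₀ hnpos.ne', rpow_one]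
  have hw2 : ∀ i : ℤ, (|pz k (i - L)| ^ (1 / (n : ℝ))) ^ (n + 1) = |pz k (i - L)| ^ q k := by
    intro i
    rw [← rpow_natCast, ← rpow_mul (abs_nonneg _)]
    congr 1
    unfold q
    push_cast
    rw [← hn0]
    have : (2 : ℝ) * k = n + 1 := by rw [hn0]; ring
    rw [this]
    field_simp
  have hck : ∫ x in (-(1 / 2) : ℝ)..1 / 2, cos (π * x) ^ (n + 1) = c k := by
    have h1 := kernel_integral (n + 1) 0 0
    simp only [mul_zero, zero_mul, cos_zero, mul_one, one_mul] at h1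
    rw [h1, ← hn, J_even]
    field_simp
  have hS : ∑ i ∈ range (2 * L + 1), (|pz k ((i : ℤ) - L)| ^ (1 / (n : ℝ))) ^ (n + 1)
      * ∫ x in (-(1 / 2) : ℝ)..1 / 2, cos (π * x) ^ (n + 1) = SL k L * c k := by
    rw [hck, ← Finset.sum_mul]
    congr 1
    unfold SL
    exact Finset.sum_congr rfl fun i _ => hw2 i
  have hH := holder (range (2 * L + 1)) n (fun i => |pz k ((i : ℤ) - L)| ^ (1 / (n : ℝ)))
    (fun i _ => rpow_nonneg (abs_nonneg _) _) (fun x => cos (π * x)) (by fun_prop) B hBc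
    (a := -(1 / 2)) (b := 1 / 2) (by norm_num) (by
      intro x hx
      apply cos_nonneg_of_mem_Icc
      constructor <;> nlinarith [hx.1, hx.2]) (fun i x => by rw [hB]; exact norm_nonneg _)
    (by rw [hS]; exact mul_pos (SL_pos k L hk) hc)
  simp only [hw] at hH
  rw [hS] at hH
  -- step C
  have hC : ∑ i ∈ range (2 * L + 1), ∫ x in (-(1 / 2) : ℝ)..1 / 2, B i x ^ (n + 1)
      ≤ M * ∫ t in (0 : ℝ)..1, ‖D A u t‖ ^ (n + 1) := by
    exact period_le (fun t => ‖D A u t‖ ^ (n + 1)) ((D_cont A u).norm.pow _)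
      (fun t => by show ‖D A u (t + 1)‖ ^ (n + 1) = ‖D A u t‖ ^ (n + 1); rw [D_periodic])
      (fun t => by positivity) L (N + u) hM
  calc ((A.card : ℝ) * u * (c k - δ)) ^ (n + 1)
      ≤ (∑ i ∈ range (2 * L + 1), |pz k ((i : ℤ) - L)|
        * ∫ x in (-(1 / 2) : ℝ)..1 / 2, cos (π * x) ^ n * B i x) ^ (n + 1) :=
        pow_le_pow_left₀ (mul_nonneg (mul_nonneg (Nat.cast_nonneg _) (Nat.cast_nonneg _))
          (sub_nonneg.2 hδc)) hA1 _
    _ ≤ _ := hH
    _ ≤ _ := mul_le_mul_of_nonneg_left hC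
        (pow_nonneg (mul_nonneg (SL_pos k L hk).le hc.le) _)

end Pool.Agent.BRS
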