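import Pool.Agent.BRS.Dual3

set_option autoImplicit false

/-! The asymptotic upper bound. -/

namespace Pool.Agent.BRS

open Real Finset

/-- all inequalities together -/
theorem combined {k l m : ℕ} (hk : 1 ≤ k) (hkl : k = l + m) {A : Finset ℕ} {u N : ℕ}
    (hA : A ⊆ Finset.Icc 1 N) (hD : DistinctSums (k + l) A)
    {L : ℕ} {δ : ℝ} (hδ0 : 0 ≤ δ) (hδc : δ ≤ c k)
    (hδ : ∀ y : ℝ, |y| ≤ 1 / 2 → 1 - d k + 4 * d k * y ^ 2 - δ
      ≤ ∑ i ∈ range (2 * L + 1), pz k ((i : ℤ) - L) * cos (2 * π * y * ((i : ℝ) - L)))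
    (hM : 2 * L + 1 ≤ N + u) (hu : 0 < u) (hn : 0 < A.card) :
    (A.card : ℝ) ^ (k + l) * (c k - δ) ^ (2 * k)
      ≤ (S k * c k) ^ (2 * k - 1) * ((N : ℝ) + u)
        * ((k.factorial : ℝ) * l.factorial + (k : ℝ) * l * ((A.card : ℝ) ^ (k + l - 1) / u)) := by
  have h1 := dual_ineq hk hA hδ0 hδc hδ hM
  rw [energy A u k l m hkl] at h1
  have h2 := X_le (u := u) hD hkl
  have h2' : (X A u k l m : ℝ) ≤ (k.factorial : ℝ) * l.factorial
      * ((A.card : ℝ) ^ m * (u : ℝ) ^ (2 * k))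
      + (k : ℝ) * l * ((A.card : ℝ) ^ (2 * k - 1) * (u : ℝ) ^ (2 * k - 1)) := by
    exact_mod_cast h2
  have hc := c_pos k
  have hSL := SL_le k L hk
  have hSL0 := SL_pos k L hk
  set n : ℝ := (A.card : ℝ) with hn'
  have hnpos : 0 < n := by rw [hn']; exact_mod_cast hn
  have hu' : (0 : ℝ) < u := by exact_mod_cast hu
  have h3 : (n * u * (c k - δ)) ^ (2 * k) ≤ (S k * c k) ^ (2 * k - 1) * (((N : ℝ) + u)
      * ((k.factorial : ℝ) * l.factorial * (n ^ m * (u : ℝ) ^ (2 * k))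
      + (k : ℝ) * l * (n ^ (2 * k - 1) * (u : ℝ) ^ (2 * k - 1)))) := by
    refine h1.trans ?_
    have h4 : (SL k L * c k) ^ (2 * k - 1) ≤ (S k * c k) ^ (2 * k - 1) :=
      pow_le_pow_left₀ (mul_nonneg hSL0.le hc.le) (mul_le_mul_of_nonneg_right hSL hc.le) _
    have h5 : ((N + u : ℕ) : ℝ) * (X A u k l m : ℝ) ≤ ((N : ℝ) + u)
      * ((k.factorial : ℝ) * l.factorial * (n ^ m * (u : ℝ) ^ (2 * k))
      + (k : ℝ) * l * (n ^ (2 * k - 1) * (u : ℝ) ^ (2 * k - 1))) := by
      push_cast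
      exact mul_le_mul_of_nonneg_left h2' (by positivity)
    exact mul_le_mul h4 h5 (by positivity) (by
      exact pow_nonneg (mul_nonneg (hSL0.le.trans hSL) hc.le) _)
  have hpos : 0 < n ^ m * (u : ℝ) ^ (2 * k) := by positivity
  have e1 : (n * u * (c k - δ)) ^ (2 * k)
      = n ^ m * (u : ℝ) ^ (2 * k) * (n ^ (k + l) * (c k - δ) ^ (2 * k)) := by
    rw [mul_pow, mul_pow]
    have : n ^ (2 * k) = n ^ m * n ^ (k + l) := by
      rw [← pow_add]; congr 1; omega
    rw [this]; ring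
  have e2 : (S k * c k) ^ (2 * k - 1) * (((N : ℝ) + u)
      * ((k.factorial : ℝ) * l.factorial * (n ^ m * (u : ℝ) ^ (2 * k))
      + (k : ℝ) * l * (n ^ (2 * k - 1) * (u : ℝ) ^ (2 * k - 1))))
      = n ^ m * (u : ℝ) ^ (2 * k) * ((S k * c k) ^ (2 * k - 1) * ((N : ℝ) + u)
        * ((k.factorial : ℝ) * l.factorial + (k : ℝ) * l * (n ^ (k + l - 1) / u))) := by
    have h6 : n ^ (2 * k - 1) = n ^ m * n ^ (k + l - 1) := by
      rw [← pow_add]; congr 1; omega
    have h7 : (u : ℝ) ^ (2 * k) = (u : ℝ) ^ (2 * k - 1) * u := by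
      rw [← pow_succ]; congr 1; omega
    rw [h6, h7]
    field_simp
  rw [e1, e2] at h3
  exact le_of_mul_le_mul_left h3 hpos

/-- the asymptotic bound -/
theorem asym {k l m : ℕ} (hk : 1 ≤ k) (hkl : k = l + m) {ε : ℝ} (hε : 0 < ε) :
    ∃ N₀ : ℕ, ∀ N ≥ N₀, ∀ A ⊆ Finset.Icc 1 N, DistinctSums (k + l) A →
      (A.card : ℝ) ^ (k + l)
        ≤ ((k.factorial : ℝ) * l.factorial * S k ^ (2 * k - 1) / c k + ε) * N := by
  have hc := c_pos k
  have hS : 0 < S k := lt_of_lt_of_le (SL_pos k 0 hk) (SL_le k 0 hk)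
  set F : ℝ := (k.factorial : ℝ) * l.factorial with hF
  have hFpos : 0 < F := by
    rw [hF]; have := Nat.factorial_pos k; have := Nat.factorial_pos l; positivity
  set Q : ℝ := (S k * c k) ^ (2 * k - 1) with hQ
  have hQpos : 0 < Q := by rw [hQ]; positivity
  set G : ℝ := F * S k ^ (2 * k - 1) / c k with hG
  have hGpos : 0 < G := by rw [hG]; positivity
  have hQF : Q * F = G * c k ^ (2 * k) := by
    rw [hQ, hG, mul_pow]
    have h7 : c k ^ (2 * k) = c k ^ (2 * k - 1) * c k := by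
      rw [← pow_succ]; congr 1; omega
    rw [h7]
    field_simp
  -- choice of δ
  obtain ⟨δ, hδ0, hδc, hδ1⟩ : ∃ δ : ℝ, 0 < δ ∧ δ ≤ c k ∧ Q * F < (G + ε) * (c k - δ) ^ (2 * k) := by
    have hcont : Filter.Tendsto (fun δ : ℝ => (G + ε) * (c k - δ) ^ (2 * k)) (nhds 0)
        (nhds ((G + ε) * (c k - 0) ^ (2 * k))) := by
      apply Continuous.tendsto
      fun_prop
    have hlt : Q * F < (G + ε) * (c k - 0) ^ (2 * k) := by
      rw [hQF, sub_zero]
      have : 0 < c k ^ (2 * k) := by positivity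
      nlinarith
    have h1 := hcont.eventually (lt_mem_nhds hlt)
    have h2 : ∀ᶠ δ : ℝ in nhdsWithin 0 (Set.Ioi 0), Q * F < (G + ε) * (c k - δ) ^ (2 * k) :=
      h1.filter_mono nhdsWithin_le_nhds
    have h3 : ∀ᶠ δ : ℝ in nhdsWithin 0 (Set.Ioi 0), δ < c k :=
      (gt_mem_nhds hc).filter_mono nhdsWithin_le_nhds
    obtain ⟨δ, ⟨h4, h5⟩, h6⟩ := ((h2.and h3).and self_mem_nhdsWithin).exists
    exact ⟨δ, h6, h5.le, h4⟩
  obtain ⟨L, hL⟩ := approx k hk hδ0
  -- choice of η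
  set P : ℝ := (c k - δ) ^ (2 * k) with hP
  set gap : ℝ := (G + ε) * P - Q * F with hgap
  have hgap0 : 0 < gap := by rw [hgap]; linarith
  set η : ℝ := min (1 / 2) (gap / (4 * (Q * F))) with hη
  have hη0 : 0 < η := by
    rw [hη]; exact lt_min (by norm_num) (by positivity)
  have hη1 : η ≤ 1 / 2 := min_le_left _ _
  have hη2 : 2 * η * (Q * F) ≤ gap / 2 := by
    have h1 : η ≤ gap / (4 * (Q * F)) := min_le_right _ _
    rw [le_div_iff₀ (by positivity)] at h1
    linarith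
  -- choice of n₀
  set n₀ : ℝ := 1 + (G + ε) * (3 * Q * (k * l)) / (η * (gap / 2)) with hn₀
  have hn₀1 : 1 ≤ n₀ := by
    rw [hn₀]
    have : 0 ≤ (G + ε) * (3 * Q * (k * l)) / (η * (gap / 2)) := by positivity
    linarith
  have hn₀2 : (G + ε) * (3 * Q * (k * l) / (η * n₀)) ≤ gap / 2 := by
    have h1 : (G + ε) * (3 * Q * (k * l)) / (η * (gap / 2)) ≤ n₀ := by rw [hn₀]; linarith
    rw [div_le_iff₀ (by positivity)] at h1
    rw [mul_div_assoc', div_le_iff₀ (by positivity)]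
    linarith
  refine ⟨2 * L + 1 + ⌈1 / η⌉₊ + ⌈n₀ ^ (k + l) / (G + ε)⌉₊, fun N hN A hA hD => ?_⟩
  by_contra hcon
  push Not at hcon
  have hN1 : 2 * L + 1 ≤ N := by omega
  have hN2 : 1 / η ≤ N := by
    refine (Nat.le_ceil _).trans ?_
    exact_mod_cast (by omega : ⌈1 / η⌉₊ ≤ N)
  have hN3 : n₀ ^ (k + l) ≤ (G + ε) * N := by
    have h1 : n₀ ^ (k + l) / (G + ε) ≤ N := by
      refine (Nat.le_ceil _).trans ?_
      exact_mod_cast (by omega : ⌈n₀ ^ (k + l) / (G + ε)⌉₊ ≤ N)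
    rw [div_le_iff₀ (by positivity)] at h1
    linarith
  have hNpos : (0 : ℝ) < N := lt_of_lt_of_le (by positivity) hN2
  set n : ℝ := (A.card : ℝ) with hn
  have hn0 : n₀ < n := by
    by_contra hle
    push Not at hle
    have h1 : n ^ (k + l) ≤ n₀ ^ (k + l) := pow_le_pow_left₀ (Nat.cast_nonneg _) hle _
    linarith
  have hnpos : 0 < n := by linarith
  have hcard : 0 < A.card := by
    have : (0 : ℝ) < (A.card : ℝ) := hnpos
    exact_mod_cast this
  set u : ℕ := ⌈η * N⌉₊ with hu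
  have hu1 : η * N ≤ u := Nat.le_ceil _
  have hu2 : (u : ℝ) < η * N + 1 := Nat.ceil_lt_add_one (by positivity)
  have hu0 : 0 < u := by
    have : (0 : ℝ) < u := lt_of_lt_of_le (by positivity) hu1
    exact_mod_cast this
  have hupos : (0 : ℝ) < u := by exact_mod_cast hu0
  have h1 := combined hk hkl hA hD hδ0.le hδc hL (u := u) (by omega) hu0 hcard
  rw [← hn, ← hQ, ← hF, ← hP] at h1
  have hηN : 1 ≤ η * N := by
    rw [div_le_iff₀ hη0] at hN2
    linarith
  have h2 : (N : ℝ) + u ≤ (1 + 2 * η) * N := by linarith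
  have h3 : (N : ℝ) + u ≤ 3 * N := by nlinarith
  have h4 : n ^ (k + l - 1) = n ^ (k + l) / n := by
    have : n ^ (k + l) = n ^ (k + l - 1) * n := by
      rw [← pow_succ]; congr 1; omega
    rw [this, mul_div_cancel_right₀ _ hnpos.ne']
  have h5 : (N : ℝ) * ((k : ℝ) * l * (n ^ (k + l - 1) / u)) ≤ (k : ℝ) * l * (n ^ (k + l) / (η * n₀)) := by
    have h6 : n ^ (k + l - 1) / u ≤ n ^ (k + l) / n₀ / (η * N) := by
      rw [h4]
      apply div_le_div₀ (by positivity) _ (by positivity) hu1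
      exact div_le_div_of_nonneg_left (by positivity) (by linarith) hn0.le
    calc (N : ℝ) * ((k : ℝ) * l * (n ^ (k + l - 1) / u))
        ≤ (N : ℝ) * ((k : ℝ) * l * (n ^ (k + l) / n₀ / (η * N))) := by
          apply mul_le_mul_of_nonneg_left _ hNpos.le
          exact mul_le_mul_of_nonneg_left h6 (by positivity)
      _ = (k : ℝ) * l * (n ^ (k + l) / (η * n₀)) := by field_simp
  have h6 : n ^ (k + l) * P ≤ Q * (1 + 2 * η) * F * N
      + n ^ (k + l) * (3 * Q * (k * l) / (η * n₀)) := by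
    calc n ^ (k + l) * P
        ≤ Q * ((N : ℝ) + u) * (F + (k : ℝ) * l * (n ^ (k + l - 1) / u)) := h1
      _ = Q * F * ((N : ℝ) + u) + Q * (((N : ℝ) + u) * ((k : ℝ) * l * (n ^ (k + l - 1) / u))) := by
          ring
      _ ≤ Q * F * ((1 + 2 * η) * N)
          + Q * (3 * N * ((k : ℝ) * l * (n ^ (k + l - 1) / u))) := by
          apply add_le_add
          · exact mul_le_mul_of_nonneg_left h2 (by positivity)
          · apply mul_le_mul_of_nonneg_left _ hQpos.le
            exact mul_le_mul_of_nonneg_right h3 (by positivity)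
      _ = Q * F * ((1 + 2 * η) * N)
          + Q * (3 * (N * ((k : ℝ) * l * (n ^ (k + l - 1) / u)))) := by ring
      _ ≤ Q * F * ((1 + 2 * η) * N)
          + Q * (3 * ((k : ℝ) * l * (n ^ (k + l) / (η * n₀)))) := by
          have := mul_le_mul_of_nonneg_left h5 (by norm_num : (0 : ℝ) ≤ 3)
          have := mul_le_mul_of_nonneg_left this hQpos.le
          linarith
      _ = _ := by ring
  set br : ℝ := P - 3 * Q * (k * l) / (η * n₀) with hbr
  have h7 : Q * (1 + 2 * η) * F ≤ (G + ε) * br := by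
    have e : (G + ε) * br = (G + ε) * P - (G + ε) * (3 * Q * (k * l) / (η * n₀)) := by
      rw [hbr]; ring
    rw [e]
    have e2 : (G + ε) * P = gap + Q * F := by rw [hgap]; ring
    rw [e2]
    nlinarith
  have hbr0 : 0 < br := by
    have h8 : 0 < (G + ε) * br := lt_of_lt_of_le (by positivity) h7
    exact (pos_iff_pos_of_mul_pos h8).1 (by positivity)
  have h8 : n ^ (k + l) * br ≤ Q * (1 + 2 * η) * F * N := by
    have e : n ^ (k + l) * br = n ^ (k + l) * P - n ^ (k + l) * (3 * Q * (k * l) / (η * n₀)) := by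
      rw [hbr]; ring
    rw [e]
    linarith
  have h9 : (G + ε) * N * br < n ^ (k + l) * br := mul_lt_mul_of_pos_right hcon hbr0
  have h10 : Q * (1 + 2 * η) * F * N ≤ (G + ε) * br * N := mul_le_mul_of_nonneg_right h7 hNpos.le
  linarith

theorem f_attained (r N : ℕ) : ∃ A ⊆ Finset.Icc 1 N, DistinctSums r A ∧ A.card = f r N := by
  classical
  have hne : ((Finset.Icc 1 N).powerset.filter (DistinctSums r)).Nonempty := by
    refine ⟨∅, Finset.mem_filter.2 ⟨Finset.mem_powerset.2 (Finset.empty_subset _), ?_⟩⟩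
    intro m₁ m₂ _ _ h₁ h₂ _
    have e1 : m₁ = 0 := Multiset.eq_zero_of_forall_notMem fun x hx => by simpa using h₁ x hx
    have e2 : m₂ = 0 := Multiset.eq_zero_of_forall_notMem fun x hx => by simpa using h₂ x hx
    rw [e1, e2]
  obtain ⟨A, hA, hAe⟩ := Finset.exists_mem_eq_sup _ hne Finset.card
  rw [Finset.mem_filter, Finset.mem_powerset] at hA
  refine ⟨A, hA.1, hA.2, ?_⟩
  unfold f
  rw [← hAe]

/-- the two bounds -/
theorem main {k : ℕ} (hk : 1 ≤ k) {ε : ℝ} (hε : 0 < ε) :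
    ∀ᶠ N : ℕ in Filter.atTop, (f (2 * k) N : ℝ) ^ (2 * k) ≤ (C k + ε) * N ∧
      (f (2 * k - 1) N : ℝ) ^ (2 * k - 1) ≤ (C k / k + ε) * N := by
  obtain ⟨N₁, h₁⟩ := asym (l := k) (m := 0) hk (by ring) hε
  obtain ⟨N₂, h₂⟩ := asym (l := k - 1) (m := 1) hk (by omega) hε
  filter_upwards [Filter.eventually_ge_atTop (max N₁ N₂)] with N hN
  constructor
  · obtain ⟨A, hA, hD, hAf⟩ := f_attained (2 * k) N
    have h := h₁ N (le_trans (le_max_left _ _) hN) A hA (by rwa [← two_mul])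
    rw [← hAf]
    rw [← two_mul] at h
    have e : (k.factorial : ℝ) * k.factorial * S k ^ (2 * k - 1) / c k = C k := by
      unfold C; ring
    rwa [e] at h
  · obtain ⟨A, hA, hD, hAf⟩ := f_attained (2 * k - 1) N
    have e0 : k + (k - 1) = 2 * k - 1 := by omega
    have h := h₂ N (le_trans (le_max_right _ _) hN) A hA (by rwa [e0])
    rw [← hAf]
    rw [e0] at h
    have e : (k.factorial : ℝ) * (k - 1).factorial * S k ^ (2 * k - 1) / c k = C k / k := by
      unfold C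
      have hk0 : (k : ℝ) ≠ 0 := by
        have : k ≠ 0 := by omega
        exact_mod_cast this
      have h3 : (k.factorial : ℝ) = k * (k - 1).factorial := by
        have := Nat.mul_factorial_pred (show k ≠ 0 by omega)
        exact_mod_cast this.symm
      have hc := (c_pos k).ne'
      rw [sq, h3]
      field_simp
    rwa [e] at h

end Pool.Agent.BRS
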