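import Pool.Agent.BRS.Count2

set_option autoImplicit false

/-! Exponential sums and the number of solutions. -/

namespace Pool.Agent.BRS

open Real intervalIntegral Finset

/-- `e(n t)` -/
noncomputable def E (n : ℕ) (t : ℝ) : ℂ := Complex.exp (2 * π * Complex.I * n * t)

theorem E_add (a b : ℕ) (t : ℝ) : E (a + b) t = E a t * E b t := by
  unfold E
  rw [← Complex.exp_add]
  congr 1
  push_cast
  ring

theorem E_zero (t : ℝ) : E 0 t = 1 := by
  unfold E
  simp

theorem E_sum {ι : Type*} (s : Finset ι) (f : ι → ℕ) (t : ℝ) :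
    E (∑ i ∈ s, f i) t = ∏ i ∈ s, E (f i) t := by
  classical
  induction s using Finset.induction_on with
  | empty => simp [E_zero]
  | insert a s ha ih => rw [Finset.sum_insert ha, Finset.prod_insert ha, E_add, ih]

theorem E_cont (n : ℕ) : Continuous (E n) := by
  unfold E
  fun_prop

theorem E_periodic (n : ℕ) (t : ℝ) : E n (t + 1) = E n t := by
  unfold E
  have : (2 * π * Complex.I * n * ((t + 1 : ℝ) : ℂ) : ℂ)
      = 2 * π * Complex.I * n * t + (n : ℤ) * (2 * π * Complex.I) := by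
    push_cast; ring
  rw [this, Complex.exp_add, Complex.exp_int_mul_two_pi_mul_I, mul_one]

theorem E_conj (n : ℕ) (t : ℝ) :
    (starRingEnd ℂ) (E n t) = Complex.exp (-(2 * π * Complex.I * n * t)) := by
  unfold E
  rw [← Complex.exp_conj]
  congr 1
  simp only [map_mul, Complex.conj_I, Complex.conj_ofReal, map_natCast, map_ofNat]
  ring

theorem E_integral (a b : ℕ) :
    ∫ t in (0 : ℝ)..1, E a t * (starRingEnd ℂ) (E b t) = if a = b then 1 else 0 := by
  have e : ∀ t : ℝ, E a t * (starRingEnd ℂ) (E b t)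
      = Complex.exp ((2 * π * Complex.I * ((a : ℂ) - b)) * t) := by
    intro t
    rw [E_conj]
    unfold E
    rw [← Complex.exp_add]
    congr 1
    ring
  simp only [e]
  split_ifs with h
  · subst h
    simp
  · have hc : (2 * π * Complex.I * ((a : ℂ) - b)) ≠ 0 := by
      have h1 : (a : ℂ) - b ≠ 0 := by
        rw [sub_ne_zero]
        exact_mod_cast h
      have h2 : (π : ℂ) ≠ 0 := by exact_mod_cast pi_ne_zero
      exact mul_ne_zero (mul_ne_zero (mul_ne_zero two_ne_zero h2) Complex.I_ne_zero) h1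
    rw [integral_exp_mul_complex hc]
    have h3 : Complex.exp (2 * π * Complex.I * ((a : ℂ) - b) * ((1 : ℝ) : ℂ)) = 1 := by
      have : (2 * π * Complex.I * ((a : ℂ) - b) * ((1 : ℝ) : ℂ))
          = (((a : ℤ) - (b : ℤ) : ℤ) : ℂ) * (2 * π * Complex.I) := by
        push_cast; ring
      rw [this, Complex.exp_int_mul_two_pi_mul_I]
    rw [h3]
    simp

theorem count_integral {ι ι' : Type*} [DecidableEq ι] [DecidableEq ι'] (P : Finset ι)
    (P' : Finset ι') (s : ι → ℕ) (s' : ι' → ℕ) :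
    ∫ t in (0 : ℝ)..1, (∑ p ∈ P, E (s p) t) * (starRingEnd ℂ) (∑ p ∈ P', E (s' p) t)
      = (((P ×ˢ P').filter fun p => s p.1 = s' p.2).card : ℂ) := by
  have e : ∀ t : ℝ, (∑ p ∈ P, E (s p) t) * (starRingEnd ℂ) (∑ p ∈ P', E (s' p) t)
      = ∑ p ∈ P ×ˢ P', E (s p.1) t * (starRingEnd ℂ) (E (s' p.2) t) := by
    intro t
    rw [map_sum, Finset.sum_mul_sum, Finset.sum_product]
  simp only [e]
  rw [intervalIntegral.integral_finsetSum]
  · simp only [E_integral]
    rw [← Finset.sum_filter]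
    simp
  · intro p _
    apply Continuous.intervalIntegrable
    exact (E_cont _).mul (Complex.continuous_conj.comp (E_cont _))

/-- exponential sum of a finite set -/
noncomputable def T (A : Finset ℕ) (t : ℝ) : ℂ := ∑ a ∈ A, E a t

theorem T_pow (A : Finset ℕ) (k : ℕ) (t : ℝ) :
    T A t ^ k = ∑ a ∈ tup A k, E (∑ i, a i) t := by
  have h := Finset.prod_univ_sum (fun _ : Fin k => A) (fun (_ : Fin k) (a : ℕ) => E a t)
  rw [Finset.prod_const, Finset.card_univ, Fintype.card_fin] at h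
  unfold T
  rw [h]
  refine Finset.sum_congr rfl fun a _ => ?_
  rw [E_sum]

/-- the exponential sum of `A + [0, u)` -/
noncomputable def D (A : Finset ℕ) (u : ℕ) (t : ℝ) : ℂ := T A t * T (range u) t

theorem T_cont (A : Finset ℕ) : Continuous (T A) := by
  unfold T
  exact continuous_finsetSum _ fun a _ => E_cont a

theorem D_cont (A : Finset ℕ) (u : ℕ) : Continuous (D A u) := (T_cont A).mul (T_cont _)

theorem D_periodic (A : Finset ℕ) (u : ℕ) (t : ℝ) : D A u (t + 1) = D A u t := by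
  unfold D T
  simp only [E_periodic]

theorem D_pow (A : Finset ℕ) (u k : ℕ) (t : ℝ) :
    D A u t ^ k = ∑ p ∈ tup A k ×ˢ tup (range u) k, E (∑ i, p.1 i + ∑ i, p.2 i) t := by
  unfold D
  rw [mul_pow, T_pow, T_pow, Finset.sum_mul_sum, Finset.sum_product]
  simp only [E_add]

theorem D_pow' (A : Finset ℕ) (u k l m : ℕ) (hk : k = l + m) (t : ℝ) :
    D A u t ^ k = ∑ p ∈ (tup A l ×ˢ tup A m) ×ˢ tup (range u) k,
      E (∑ i, p.1.1 i + ∑ i, p.1.2 i + ∑ i, p.2 i) t := by
  unfold D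
  rw [mul_pow]
  have h1 : T A t ^ k = T A t ^ l * T A t ^ m := by rw [← pow_add, hk]
  rw [h1, T_pow, T_pow, T_pow, Finset.sum_mul_sum, ← Finset.sum_product', Finset.sum_mul_sum,
    Finset.sum_product (s := tup A l ×ˢ tup A m)]
  simp only [E_add]

theorem energy (A : Finset ℕ) (u k l m : ℕ) (hk : k = l + m) :
    ∫ t in (0 : ℝ)..1, ‖D A u t‖ ^ (2 * k) = (X A u k l m : ℝ) := by
  classical
  have h := count_integral (tup A k ×ˢ tup (range u) k) ((tup A l ×ˢ tup A m) ×ˢ tup (range u) k)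
    (fun p => ∑ i, p.1 i + ∑ i, p.2 i) (fun p => ∑ i, p.1.1 i + ∑ i, p.1.2 i + ∑ i, p.2 i)
  have h2 : (((tup A k ×ˢ tup (range u) k) ×ˢ ((tup A l ×ˢ tup A m) ×ˢ tup (range u) k)).filter
      fun p => (fun p : (Fin k → ℕ) × (Fin k → ℕ) => ∑ i, p.1 i + ∑ i, p.2 i) p.1
        = (fun p : ((Fin l → ℕ) × (Fin m → ℕ)) × (Fin k → ℕ) =>
          ∑ i, p.1.1 i + ∑ i, p.1.2 i + ∑ i, p.2 i) p.2).card = X A u k l m := by
    unfold X box Eqn
    congr 1
  rw [h2] at h
  have e : ∀ t : ℝ, ((‖D A u t‖ ^ (2 * k) : ℝ) : ℂ)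
      = (∑ p ∈ tup A k ×ˢ tup (range u) k, E (∑ i, p.1 i + ∑ i, p.2 i) t) * (starRingEnd ℂ)
        (∑ p ∈ (tup A l ×ˢ tup A m) ×ˢ tup (range u) k,
          E (∑ i, p.1.1 i + ∑ i, p.1.2 i + ∑ i, p.2 i) t) := by
    intro t
    rw [← D_pow, ← D_pow' A u k l m hk, Complex.mul_conj, Complex.normSq_eq_norm_sq, norm_pow,
      ← pow_mul, mul_comm k 2]
  have h3 : ((∫ t in (0 : ℝ)..1, ‖D A u t‖ ^ (2 * k) : ℝ) : ℂ) = ((X A u k l m : ℝ) : ℂ) := by
    rw [← intervalIntegral.integral_ofReal]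
    simp only [e]
    rw [h]
    push_cast
    rfl
  exact_mod_cast h3

end Pool.Agent.BRS
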