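import Pool.Agent.BRS.Closed2

set_option autoImplicit false

/-! The numerical bound for six-fold and five-fold sums. -/

namespace Pool.Agent.BRS

open Real Finset Filter

theorem rpow65 {x y : ℝ} (hx : 0 ≤ x) (hy : 0 ≤ y) (h : x ^ 6 ≤ y ^ 5) :
    x ^ (6 / 5 : ℝ) ≤ y := by
  calc x ^ (6 / 5 : ℝ) = (x ^ 6) ^ (((5 : ℕ) : ℝ)⁻¹) := by
        rw [← rpow_natCast x 6, ← rpow_mul hx]
        norm_num
    _ ≤ (y ^ 5) ^ (((5 : ℕ) : ℝ)⁻¹) := rpow_le_rpow (by positivity) h (by positivity)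
    _ = y := pow_rpow_inv_natCast hy (by norm_num)

theorem d_three : d 3 = 1 - 75 * π / 256 := by
  unfold d c
  have : Nat.centralBinom 3 = 20 := by decide
  rw [this]
  push_cast
  ring

theorem z_three : ∑' j : ℕ, (((j : ℝ) + 1) ^ (2 * q 3))⁻¹ ≤ 1 + 0.758 * (π ^ 2 / 6 - 1) := by
  have hq : 2 * q 3 = 12 / 5 := by unfold q; norm_num
  have hs := S_summable (k := 3) (by norm_num)
  rw [hs.tsum_eq_zero_add, hq]
  rw [hq] at hs
  have h1 := hasSum_zeta_two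
  have h2 := (hasSum_nat_add_iff' 2).2 h1
  have e2 : π ^ 2 / 6 - ∑ i ∈ Finset.range 2, 1 / ((i : ℝ)) ^ 2 = π ^ 2 / 6 - 1 := by
    norm_num [Finset.sum_range_succ]
  rw [e2] at h2
  have h3 := h2.mul_left (0.758 : ℝ)
  rw [← h3.tsum_eq]
  have e0 : (((0 : ℕ) : ℝ) + 1) ^ (12 / 5 : ℝ) = 1 := by norm_num
  rw [e0, inv_one]
  apply add_le_add le_rfl
  apply Summable.tsum_le_tsum _ ((summable_nat_add_iff 1).2 hs) h3.summable
  intro j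
  have hj : (0 : ℝ) ≤ j := Nat.cast_nonneg j
  push_cast
  have hp : (0 : ℝ) < (j : ℝ) + 1 + 1 := by positivity
  have e1 : (j : ℝ) + 2 = (j : ℝ) + 1 + 1 := by ring
  rw [e1]
  have h4 : ((j : ℝ) + 1 + 1) ^ (12 / 5 : ℝ)
      = ((j : ℝ) + 1 + 1) ^ (2 : ℝ) * ((j : ℝ) + 1 + 1) ^ (2 / 5 : ℝ) := by
    rw [← rpow_add hp]
    norm_num
  have h5 : (1 / 0.758 : ℝ) ≤ ((j : ℝ) + 1 + 1) ^ (2 / 5 : ℝ) := by
    have h6 : (2 : ℝ) ^ (2 / 5 : ℝ) ≤ ((j : ℝ) + 1 + 1) ^ (2 / 5 : ℝ) :=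
      rpow_le_rpow (by norm_num) (by linarith) (by norm_num)
    refine le_trans ?_ h6
    have e3 : (2 : ℝ) ^ (2 / 5 : ℝ) = (2 ^ 2) ^ (((5 : ℕ) : ℝ)⁻¹) := by
      rw [← rpow_natCast (2 : ℝ) 2, ← rpow_mul (by norm_num)]
      norm_num
    rw [e3]
    calc (1 / 0.758 : ℝ) = ((1 / 0.758 : ℝ) ^ 5) ^ (((5 : ℕ) : ℝ)⁻¹) :=
          (pow_rpow_inv_natCast (by norm_num) (by norm_num)).symm
      _ ≤ _ := by
          apply rpow_le_rpow (by norm_num) _ (by positivity)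
          norm_num
  rw [h4, rpow_two, mul_inv]
  have h7 : (((j : ℝ) + 1 + 1) ^ (2 / 5 : ℝ))⁻¹ ≤ 0.758 := by
    rw [inv_le_comm₀ (by positivity) (by norm_num)]
    rwa [one_div] at h5
  calc (((j : ℝ) + 1 + 1) ^ 2)⁻¹ * (((j : ℝ) + 1 + 1) ^ (2 / 5 : ℝ))⁻¹
      ≤ (((j : ℝ) + 1 + 1) ^ 2)⁻¹ * 0.758 := mul_le_mul_of_nonneg_left h7 (by positivity)
    _ = 0.758 * (1 / ((j : ℝ) + 1 + 1) ^ 2) := by ring

theorem S_three : S 3 ≤ 0.9579 := by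
  have hz := z_three
  unfold S
  have hq : q 3 = 6 / 5 := by unfold q; norm_num
  have hd := d_three
  have hpl : (3.141592 : ℝ) < π := pi_gt_d6
  have hpu : π < (3.141593 : ℝ) := pi_lt_d6
  have hdu : d 3 ≤ 0.0796118 := by rw [hd]; linarith
  have hdl : 0.0796113 ≤ d 3 := by rw [hd]; linarith
  have h1 : (1 - 2 / 3 * d 3) ^ (6 / 5 : ℝ) ≤ 0.9367 := by
    apply rpow65 (by linarith) (by norm_num)
    calc (1 - 2 / 3 * d 3) ^ 6 ≤ (0.946926 : ℝ) ^ 6 :=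
          pow_le_pow_left₀ (by linarith) (by linarith) 6
      _ ≤ 0.9367 ^ 5 := by norm_num
  have h2 : (2 * d 3 / π ^ 2) ^ (6 / 5 : ℝ) ≤ 0.00708 := by
    have hb : 2 * d 3 / π ^ 2 ≤ 0.016134 := by
      rw [div_le_iff₀ (by positivity)]
      nlinarith
    apply rpow65 (by positivity) (by norm_num)
    calc (2 * d 3 / π ^ 2) ^ 6 ≤ (0.016134 : ℝ) ^ 6 :=
          pow_le_pow_left₀ (by positivity) hb 6
      _ ≤ 0.00708 ^ 5 := by norm_num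
  rw [hq] at hz ⊢
  have h3 : 1 + 0.758 * (π ^ 2 / 6 - 1) ≤ 1.489 := by nlinarith
  have h4 : 2 * (2 * d 3 / π ^ 2) ^ (6 / 5 : ℝ) * ∑' j : ℕ, (((j : ℝ) + 1) ^ (2 * (6 / 5 : ℝ)))⁻¹
      ≤ 2 * 0.00708 * 1.489 := by
    apply mul_le_mul _ (hz.trans h3) (tsum_nonneg fun j => by positivity) (by positivity)
    linarith
  refine (add_le_add h1 h4).trans ?_
  norm_num

theorem C_three : C 3 < 93 := by
  unfold C
  have h0 : 0 ≤ S 3 := by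
    unfold S
    have h := (d_mem (k := 3) (by norm_num))
    have h1 : 0 ≤ 1 - 2 / 3 * d 3 := by linarith [h.2]
    have h2 : 0 ≤ ∑' j : ℕ, (((j : ℝ) + 1) ^ (2 * q 3))⁻¹ := tsum_nonneg fun j => by positivity
    have h3 := h.1
    positivity
  have h1 : S 3 ^ (2 * 3 - 1) ≤ 0.9579 ^ 5 := pow_le_pow_left₀ h0 S_three 5
  have hc : c 3 = 5 / 16 := by
    unfold c
    have : Nat.centralBinom 3 = 20 := by decide
    rw [this]
    norm_num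
  have hf : (Nat.factorial 3 : ℝ) = 6 := by norm_num [Nat.factorial]
  rw [hc, hf]
  rw [div_lt_iff₀ (by norm_num)]
  have h2 : (6 : ℝ) ^ 2 * S 3 ^ (2 * 3 - 1) ≤ 6 ^ 2 * 0.9579 ^ 5 :=
    mul_le_mul_of_nonneg_left h1 (by norm_num)
  refine lt_of_le_of_lt h2 ?_
  norm_num

end Pool.Agent.BRS
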